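import Pool.Agent.Lib.MP_f31b39_co.SX.Defs

/-!
# SX-Nw: vanishing power sums
-/

namespace TightIndep.SX

open Finset

theorem nw {p r : ℕ} [Fact p.Prime] (T : ZMod p → ℕ)
    (hS : ∀ k, 1 ≤ k → k ≤ r → ps T k = 0)
    (hcnt : (univ.filter fun c : ZMod p => c ≠ 0 ∧ T c ≠ 0).card ≤ r) :
    ∀ c : ZMod p, c ≠ 0 → (T c : ZMod p) = 0 := by
  classical
  intro c0 hc0
  by_contra hne
  have hT0 : T c0 ≠ 0 := fun h => hne (by rw [h]; simp)
  obtain ⟨s, hs⟩ : ∃ s : Finset (ZMod p), s = univ.filter fun c : ZMod p => c ≠ 0 ∧ T c ≠ 0 :=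
    ⟨_, rfl⟩
  rw [← hs] at hcnt
  have hmem : c0 ∈ s := by
    rw [hs, mem_filter]
    exact ⟨mem_univ _, hc0, hT0⟩
  obtain ⟨P, hP⟩ : ∃ P : Polynomial (ZMod p), P = Polynomial.X *
      ∏ c ∈ s.erase c0, (Polynomial.X - Polynomial.C c) := ⟨_, rfl⟩
  have hdeg : P.natDegree ≤ r := by
    have h1 : (∏ c ∈ s.erase c0, (Polynomial.X - Polynomial.C c)).natDegree =
        (s.erase c0).card := by
      rw [Polynomial.natDegree_prod_of_monic _ _ (fun c _ => Polynomial.monic_X_sub_C c)]
      simp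
    have h2 := card_erase_of_mem hmem
    have h3 : 0 < s.card := card_pos.mpr ⟨c0, hmem⟩
    rw [hP]
    refine le_trans Polynomial.natDegree_mul_le ?_
    rw [h1, h2, Polynomial.natDegree_X]
    omega
  have hco : P.coeff 0 = 0 := by
    rw [hP]
    simp [Polynomial.mul_coeff_zero]
  have e1 : ∑ c, (T c : ZMod p) * P.eval c = (T c0 : ZMod p) * P.eval c0 := by
    apply Finset.sum_eq_single c0
    · intro c _ hc
      by_cases hc' : c = 0
      · rw [hP, hc']
        simp
      · by_cases hT : T c = 0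
        · rw [hT]
          simp
        · have h4 : c ∈ s.erase c0 := by
            rw [mem_erase, hs, mem_filter]
            exact ⟨hc, mem_univ _, hc', hT⟩
          rw [hP, Polynomial.eval_mul, Polynomial.eval_prod,
            Finset.prod_eq_zero h4 (by simp), mul_zero, mul_zero]
    · intro h
      exact absurd (mem_univ _) h
  have e2 : ∑ c, (T c : ZMod p) * P.eval c = 0 := by
    have h5 : ∀ c, P.eval c = ∑ k ∈ range (r + 1), P.coeff k * c ^ k := fun c =>
      Polynomial.eval_eq_sum_range' (Nat.lt_succ_of_le hdeg) c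
    simp_rw [h5, mul_sum]
    rw [sum_comm]
    apply sum_eq_zero
    intro k hk
    rcases Nat.eq_zero_or_pos k with rfl | hk0
    · simp [hco]
    · have h6 : ∑ c, (T c : ZMod p) * (P.coeff k * c ^ k) = P.coeff k * ps T k := by
        unfold ps
        rw [mul_sum]
        refine sum_congr rfl fun c _ => ?_
        ring
      rw [h6, hS k hk0 (by rw [mem_range] at hk; omega), mul_zero]
  have e3 : P.eval c0 ≠ 0 := by
    rw [hP, Polynomial.eval_mul, Polynomial.eval_prod, Polynomial.eval_X]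
    refine mul_ne_zero hc0 (Finset.prod_ne_zero_iff.mpr fun c hc => ?_)
    rw [Polynomial.eval_sub, Polynomial.eval_X, Polynomial.eval_C]
    exact sub_ne_zero.mpr (Ne.symm (mem_erase.mp hc).1)
  rw [e1] at e2
  rcases mul_eq_zero.mp e2 with h | h
  · exact hne h
  · exact e3 h

end TightIndep.SX
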