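import Pool.Agent.Lib.MP_f31b39_co.SX.Pr

/-!
# SX-E23: `m = 38` modulo 23
-/

namespace TightIndep.SX

open Finset

private theorem e23_tab : ∀ α β : ZMod 23, β ≠ 0 →
    110 ≤ ∑ c ∈ (univ : Finset (ZMod 23)).erase 0, (α + β * c ^ 6).val := by
  decide +kernel

private theorem e23_ne : ∀ c : ZMod 23, c ≠ 0 → c ≠ -c := by
  decide

private theorem e23_br : ∀ k, 1 ≤ k → k ≤ 21 → Even k → k ∉ ({16} : Finset ℕ) →
    ¬ ((23 : ℕ) : ℤ) ∣ br 38 k := by
  intro k h1 h2 he hk
  interval_cases k <;> first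
    | (exfalso; revert he; decide)
    | (exfalso; revert hk; decide)
    | (unfold br; norm_num)

private theorem e23_root : Polynomial.aeval (2 : ZMod 47) (Polynomial.cyclotomic 23 ℤ) = 0 := by
  have : Fact (Nat.Prime 23) := ⟨by norm_num⟩
  rw [Polynomial.cyclotomic_prime, map_sum]
  simp only [map_pow, Polynomial.aeval_X]
  decide +kernel

private theorem e23_geo : (∑ c : ZMod 23, (2 : ZMod 47) ^ c.val = 0) ∧
    (∑ c : ZMod 23, ((2 : ZMod 47) ^ 2) ^ c.val = 0) ∧
    (∑ c : ZMod 23, ((2 : ZMod 47) ^ 3) ^ c.val = 0) := by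
  decide +kernel

/-- the value of the generating function of the exceptional families -/
private def e23_v (a t : ZMod 47) (c : ZMod 23) (z : ZMod 47) : ZMod 47 :=
  (t - a) + 23 * (z ^ c.val + z ^ (-c).val)

private theorem e23_num : ∀ c : ZMod 23, c ≠ 0 →
    (e23_v 0 31 c 2 ^ 3 + 3 * e23_v 0 31 c 2 * e23_v 0 31 c (2 ^ 2) + 2 * e23_v 0 31 c (2 ^ 3) ≠
      6 * ((38 : ℕ) : ZMod 47) * e23_v 0 31 c 2) ∧
    (e23_v 1 9 c 2 ^ 3 + 3 * e23_v 1 9 c 2 * e23_v 1 9 c (2 ^ 2) + 2 * e23_v 1 9 c (2 ^ 3) ≠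
      6 * ((38 : ℕ) : ZMod 47) * e23_v 1 9 c 2) := by
  decide +kernel

private theorem e23_sum (T : ZMod 23 → ℕ) (a t : ℕ) (c₀ : ZMod 23) (h0 : c₀ ≠ 0) (hn : c₀ ≠ -c₀)
    (ht : T 0 = t) (h1 : T c₀ = a + 23) (h2 : T (-c₀) = a + 23)
    (h3 : ∀ c, c ≠ 0 → c ≠ c₀ → c ≠ -c₀ → T c = a) (z : ZMod 47)
    (hz : ∑ c : ZMod 23, z ^ c.val = 0) :
    ∑ c, (T c : ZMod 47) * z ^ c.val = e23_v a t c₀ z := by
  have hT : ∀ c : ZMod 23, (T c : ZMod 47) = a + (if c = 0 then ((t : ZMod 47) - a) else 0) +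
      (if c = c₀ then (23 : ZMod 47) else 0) + (if c = -c₀ then (23 : ZMod 47) else 0) := by
    intro c
    by_cases e0 : c = 0
    · subst e0
      have e1 : (0 : ZMod 23) ≠ c₀ := fun h => h0 h.symm
      have e2 : (0 : ZMod 23) ≠ -c₀ := fun h => h0 (neg_eq_zero.mp h.symm)
      rw [if_pos rfl, if_neg e1, if_neg e2, ht]
      ring
    · by_cases e1 : c = c₀
      · subst e1
        rw [if_neg e0, if_pos rfl, if_neg hn, h1]
        push_cast
        ring
      · by_cases e2 : c = -c₀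
        · rw [if_neg e0, if_neg e1, if_pos e2, e2, h2]
          push_cast
          ring
        · rw [if_neg e0, if_neg e1, if_neg e2, h3 c e0 e1 e2]
          ring
  simp only [hT, add_mul, Finset.sum_add_distrib, ite_mul, zero_mul, Finset.sum_ite_eq',
    Finset.mem_univ, if_true, ← Finset.mul_sum, hz]
  unfold e23_v
  rw [ZMod.val_zero]
  ring

theorem e23 (T : ZMod 23 → ℕ) (hT : Cls 38 23 T) : False := by
  have : Fact (Nat.Prime 23) := ⟨by norm_num⟩
  have hps := pz T hT (by norm_num) 21 (by norm_num) {16} (by decide) e23_br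
  obtain ⟨α, hα⟩ : ∃ α : ZMod 23, α = -(ps T 0 - T 0) := ⟨_, rfl⟩
  obtain ⟨β, hβ⟩ : ∃ β : ZMod 23, β = -ps T 16 := ⟨_, rfl⟩
  have hval : ∀ c : ZMod 23, c ≠ 0 → (T c : ZMod 23) = α + β * c ^ 6 := by
    intro c hc
    have h := inv (p := 23) (by norm_num) T c hc
    have hs : ∑ k ∈ Icc 1 (23 - 2), ps T k * c ^ (23 - 1 - k) = ps T 16 * c ^ 6 := by
      rw [Finset.sum_eq_single 16]
      · intro k hk hk16
        rw [Finset.mem_Icc] at hk
        rw [hps k hk.1 hk.2 (by simpa using hk16), zero_mul]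
      · intro h16
        exact absurd (by decide : (16 : ℕ) ∈ Icc 1 (23 - 2)) h16
    rw [h, hs, hα, hβ]
    ring
  have hmod : ∀ c : ZMod 23, c ≠ 0 → T c % 23 = (α + β * c ^ 6).val := by
    intro c hc
    rw [← hval c hc, ZMod.val_natCast]
  have hsum : T 0 + ∑ c ∈ (univ : Finset (ZMod 23)).erase 0, T c = 77 := by
    rw [Finset.add_sum_erase univ T (Finset.mem_univ 0), hT.sum]
  have hpos := hT.pos0
  have hβ0 : β = 0 := by
    by_contra hne
    have h1 := e23_tab α β hne
    have h2 : ∑ c ∈ (univ : Finset (ZMod 23)).erase 0, (α + β * c ^ 6).val ≤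
        ∑ c ∈ (univ : Finset (ZMod 23)).erase 0, T c := by
      refine Finset.sum_le_sum fun c hc => ?_
      rw [← hmod c (Finset.ne_of_mem_erase hc)]
      exact Nat.mod_le _ _
    omega
  have hmod2 : ∀ c : ZMod 23, c ≠ 0 → T c % 23 = α.val := by
    intro c hc
    rw [hmod c hc, hβ0, zero_mul, add_zero]
  have ha23 : α.val < 23 := ZMod.val_lt α
  obtain ⟨a, ha⟩ : ∃ a : ℕ, a = α.val := ⟨_, rfl⟩
  rw [← ha] at hmod2 ha23
  have hcard : ((univ : Finset (ZMod 23)).erase 0).card = 22 := by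
    rw [Finset.card_erase_of_mem (Finset.mem_univ _), Finset.card_univ, ZMod.card]
  by_cases hbig : ∃ c₀ : ZMod 23, c₀ ≠ 0 ∧ 23 ≤ T c₀
  · obtain ⟨c₀, h0, hb⟩ := hbig
    have hn : c₀ ≠ -c₀ := e23_ne c₀ h0
    have hneg0 : -c₀ ≠ 0 := neg_ne_zero.mpr h0
    have hsy : T (-c₀) = T c₀ := hT.symm c₀
    -- three and five terms
    have hpair : T 0 + T c₀ + T (-c₀) ≤ 77 := by
      have hss : ({0, c₀, -c₀} : Finset (ZMod 23)) ⊆ univ := Finset.subset_univ _
      have := Finset.sum_le_sum_of_subset (f := T) hss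
      rw [hT.sum] at this
      rw [Finset.sum_insert, Finset.sum_insert, Finset.sum_singleton] at this
      · omega
      · simpa using hn
      · simp only [Finset.mem_insert, Finset.mem_singleton, not_or]
        exact ⟨fun h => h0 h.symm, fun h => hneg0 h.symm⟩
    have hc0 : T c₀ = a + 23 := by
      have := hmod2 c₀ h0
      omega
    have hothers : ∀ c, c ≠ 0 → c ≠ c₀ → c ≠ -c₀ → T c = a := by
      intro c e0 e1 e2
      have hcn : c ≠ -c := e23_ne c e0
      have hss : ({0, c₀, -c₀, c, -c} : Finset (ZMod 23)) ⊆ univ := Finset.subset_univ _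
      have h5 := Finset.sum_le_sum_of_subset (f := T) hss
      rw [hT.sum] at h5
      have hc1 : -c ≠ 0 := neg_ne_zero.mpr e0
      have hc2 : -c ≠ c₀ := fun h => e2 (by rw [← h, neg_neg])
      have hc3 : -c ≠ -c₀ := fun h => e1 (neg_injective h)
      rw [Finset.sum_insert, Finset.sum_insert, Finset.sum_insert, Finset.sum_insert,
        Finset.sum_singleton] at h5
      · have hs2 : T (-c) = T c := hT.symm c
        have := hmod2 c e0
        omega
      · simpa using hcn
      · simp only [Finset.mem_insert, Finset.mem_singleton, not_or]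
        exact ⟨fun h => e2 h.symm, fun h => hc3 h.symm⟩
      · simp only [Finset.mem_insert, Finset.mem_singleton, not_or]
        exact ⟨hn, fun h => e1 h.symm, fun h => hc2 h.symm⟩
      · simp only [Finset.mem_insert, Finset.mem_singleton, not_or]
        exact ⟨fun h => h0 h.symm, fun h => hneg0 h.symm, fun h => e0 h.symm, fun h => hc1 h.symm⟩
    -- the sum over the nonzero classes
    have hT0 : T 0 + 22 * a + 46 = 77 := by
      have hsplit : ∀ c ∈ (univ : Finset (ZMod 23)).erase 0, T c = a +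
          ((if c = c₀ then 23 else 0) + (if c = -c₀ then 23 else 0)) := by
        intro c hc
        have e0 : c ≠ 0 := Finset.ne_of_mem_erase hc
        by_cases e1 : c = c₀
        · subst e1
          rw [if_pos rfl, if_neg hn, hc0]
        · by_cases e2 : c = -c₀
          · rw [if_neg e1, if_pos e2, e2, hsy, hc0]
          · rw [if_neg e1, if_neg e2, hothers c e0 e1 e2, add_zero, add_zero]
      rw [Finset.sum_congr rfl hsplit, Finset.sum_add_distrib, Finset.sum_add_distrib,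
        Finset.sum_const, hcard, Finset.sum_ite_eq', Finset.sum_ite_eq',
        if_pos (Finset.mem_erase.mpr ⟨h0, Finset.mem_univ _⟩),
        if_pos (Finset.mem_erase.mpr ⟨hneg0, Finset.mem_univ _⟩), smul_eq_mul] at hsum
      omega
    have hcases : (a = 0 ∧ T 0 = 31) ∨ (a = 1 ∧ T 0 = 9) := by omega
    obtain ⟨g1, g2, g3⟩ := e23_geo
    have heqn := hT.eqn 23 dvd_rfl (by norm_num) (ZMod 47) 2 e23_root
    rcases hcases with ⟨ha0, ht0⟩ | ⟨ha0, ht0⟩
    · subst ha0
      rw [e23_sum T 0 31 c₀ h0 hn ht0 (by rw [hc0]) (by rw [hsy, hc0]) hothers 2 g1,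
        e23_sum T 0 31 c₀ h0 hn ht0 (by rw [hc0]) (by rw [hsy, hc0]) hothers (2 ^ 2) g2,
        e23_sum T 0 31 c₀ h0 hn ht0 (by rw [hc0]) (by rw [hsy, hc0]) hothers (2 ^ 3) g3] at heqn
      refine (e23_num c₀ h0).1 ?_
      simpa using heqn
    · subst ha0
      rw [e23_sum T 1 9 c₀ h0 hn ht0 (by rw [hc0]) (by rw [hsy, hc0]) hothers 2 g1,
        e23_sum T 1 9 c₀ h0 hn ht0 (by rw [hc0]) (by rw [hsy, hc0]) hothers (2 ^ 2) g2,
        e23_sum T 1 9 c₀ h0 hn ht0 (by rw [hc0]) (by rw [hsy, hc0]) hothers (2 ^ 3) g3] at heqn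
      refine (e23_num c₀ h0).2 ?_
      simpa using heqn
  · push Not at hbig
    have hall : ∀ c : ZMod 23, c ≠ 0 → T c = a := by
      intro c hc
      have h1 := hbig c hc
      have h2 := hmod2 c hc
      omega
    have hc := cst T hT (by norm_num) (by decide) a hall
    have hsum2 : ∑ c ∈ (univ : Finset (ZMod 23)).erase 0, T c = 22 * a := by
      rw [Finset.sum_congr rfl (fun c hc => hall c (Finset.ne_of_mem_erase hc)), Finset.sum_const,
        hcard, smul_eq_mul]
    have ha3 : a ≤ 3 := by omega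
    interval_cases a <;> norm_num at hc

end TightIndep.SX
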