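import Pool.Agent.Lib.MP_f31b39_co.SX.Defs

/-!
# SX-Mu: reduction of the modulus, multiplication by a unit
-/

namespace TightIndep.SX

open Finset

private theorem Mu_pow {R : Type} [CommRing R] (w : R) (e n : ℕ) (hw : w ^ e = 1) :
    w ^ (n % e) = w ^ n := by
  conv_rhs => rw [← Nat.mod_add_div n e, pow_add, pow_mul, hw, one_pow, mul_one]

private theorem Mu_root {R : Type} [CommRing R] (e : ℕ) (z : R)
    (hz : Polynomial.aeval z (Polynomial.cyclotomic e ℤ) = 0) : z ^ e = 1 := by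
  have h := Polynomial.aeval_eq_zero_of_dvd_aeval_eq_zero
    (Polynomial.cyclotomic.dvd_X_pow_sub_one e ℤ) hz
  simpa [sub_eq_zero] using h

private theorem Mu_dvd (e k : ℕ) (he : 0 < e) (hk : k.Coprime e) :
    Polynomial.cyclotomic e ℤ ∣ Polynomial.expand ℤ k (Polynomial.cyclotomic e ℤ) := by
  have hζ := Complex.isPrimitiveRoot_exp e he.ne'
  have hζk := hζ.pow_of_coprime k hk
  conv_lhs => rw [Polynomial.cyclotomic_eq_minpoly hζ he]
  refine minpoly.isIntegrallyClosed_dvd (hζ.isIntegral he) ?_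
  rw [Polynomial.expand_aeval, Polynomial.cyclotomic_eq_minpoly hζk he]
  exact minpoly.aeval _ _

private theorem Mu_push {d e : ℕ} [NeZero d] [NeZero e] (he : e ∣ d) (T : ZMod d → ℕ)
    (R : Type) [CommRing R] (w : R) (hw : w ^ e = 1) :
    ∑ c' : ZMod e, ((∑ c ∈ univ.filter (fun c : ZMod d => ZMod.castHom he (ZMod e) c = c'), T c : ℕ) : R) *
      w ^ c'.val = ∑ c, (T c : R) * w ^ c.val := by
  rw [← Finset.sum_fiberwise univ (fun c : ZMod d => ZMod.castHom he (ZMod e) c)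
    (fun c => (T c : R) * w ^ c.val)]
  refine sum_congr rfl fun c' _ => ?_
  push_cast
  rw [Finset.sum_mul]
  refine sum_congr rfl fun c hc => ?_
  rw [mem_filter] at hc
  obtain ⟨_, rfl⟩ := hc
  have h : (ZMod.castHom he (ZMod e) c).val = c.val % e := by
    rw [ZMod.castHom_apply, ← ZMod.natCast_val, ZMod.val_natCast]
  rw [h, Mu_pow w e _ hw]

private theorem Mu_mul {d : ℕ} [NeZero d] (j : (ZMod d)ˣ) (T : ZMod d → ℕ)
    (R : Type) [CommRing R] (w : R) (hw : w ^ d = 1) :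
    ∑ c : ZMod d, (T (j * c) : R) * w ^ c.val =
      ∑ c, (T c : R) * (w ^ ((j⁻¹ : (ZMod d)ˣ) : ZMod d).val) ^ c.val := by
  refine Fintype.sum_equiv (Units.mulLeft j) _ _ fun c => ?_
  have h0 : (Units.mulLeft j) c = (j : ZMod d) * c := rfl
  rw [h0]
  congr 1
  have h1 : c = ((j⁻¹ : (ZMod d)ˣ) : ZMod d) * ((j : ZMod d) * c) := by
    rw [← mul_assoc, Units.inv_mul, one_mul]
  have h2 : c.val = (((j⁻¹ : (ZMod d)ˣ) : ZMod d).val * ((j : ZMod d) * c).val) % d := by
    rw [← ZMod.val_mul, ← h1]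
  rw [h2, Mu_pow w d _ hw, pow_mul]

theorem push {m d e : ℕ} [NeZero d] [NeZero e] (he : e ∣ d) (T : ZMod d → ℕ) (hT : Cls m d T) :
    Cls m e fun c' => ∑ c ∈ univ.filter (fun c : ZMod d => ZMod.castHom he (ZMod e) c = c'), T c := by
  refine ⟨?_, ?_, ?_, ?_⟩
  · refine hT.pos0.trans ?_
    refine Finset.single_le_sum (f := fun c => T c) (fun _ _ => Nat.zero_le _) ?_
    rw [mem_filter]
    exact ⟨mem_univ _, map_zero _⟩
  · intro c
    refine Finset.sum_nbij' (fun x => -x) (fun x => -x) ?_ ?_ ?_ ?_ ?_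
    · intro x hx
      rw [mem_filter] at hx ⊢
      exact ⟨mem_univ _, by rw [map_neg, hx.2, neg_neg]⟩
    · intro x hx
      rw [mem_filter] at hx ⊢
      exact ⟨mem_univ _, by rw [map_neg, hx.2]⟩
    · intro x _
      exact neg_neg x
    · intro x _
      exact neg_neg x
    · intro x _
      exact (hT.symm x).symm
  · rw [Finset.sum_fiberwise univ (fun c : ZMod d => ZMod.castHom he (ZMod e) c) T]
    exact hT.sum
  · intro e' he' h1 R _ z hz
    have hze' : z ^ e' = 1 := Mu_root e' z hz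
    have hze : z ^ e = 1 := by
      obtain ⟨t, rfl⟩ := he'
      rw [pow_mul, hze', one_pow]
    rw [Mu_push he T R z hze, Mu_push he T R (z ^ 2) (by rw [← pow_mul, mul_comm, pow_mul, hze, one_pow]),
      Mu_push he T R (z ^ 3) (by rw [← pow_mul, mul_comm, pow_mul, hze, one_pow])]
    exact hT.eqn e' (he'.trans he) h1 R z hz

theorem mul {m d : ℕ} [NeZero d] (j : (ZMod d)ˣ) (T : ZMod d → ℕ) (hT : Cls m d T) :
    Cls m d fun c => T (j * c) := by
  refine ⟨?_, ?_, ?_, ?_⟩
  · show 1 ≤ T (j * 0)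
    rw [mul_zero]
    exact hT.pos0
  · intro c
    show T (j * -c) = T (j * c)
    rw [mul_neg]
    exact hT.symm _
  · rw [← hT.sum]
    exact Fintype.sum_equiv (Units.mulLeft j) _ _ fun c => rfl
  · intro e he h1 R _ z hz
    have hze : z ^ e = 1 := Mu_root e z hz
    have hzd : z ^ d = 1 := by
      obtain ⟨t, rfl⟩ := he
      rw [pow_mul, hze, one_pow]
    set k : ℕ := ((j⁻¹ : (ZMod d)ˣ) : ZMod d).val with hk
    have hcop : k.Coprime e := (ZMod.val_coe_unit_coprime j⁻¹).coprime_dvd_right he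
    have hroot : Polynomial.aeval (z ^ k) (Polynomial.cyclotomic e ℤ) = 0 := by
      rw [← Polynomial.expand_aeval]
      exact Polynomial.aeval_eq_zero_of_dvd_aeval_eq_zero (Mu_dvd e k (by omega) hcop) hz
    rw [Mu_mul j T R z hzd, Mu_mul j T R (z ^ 2) (by rw [← pow_mul, mul_comm, pow_mul, hzd, one_pow]),
      Mu_mul j T R (z ^ 3) (by rw [← pow_mul, mul_comm, pow_mul, hzd, one_pow]), ← hk,
      pow_right_comm z 2 k, pow_right_comm z 3 k]
    exact hT.eqn e he h1 R (z ^ k) hroot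

end TightIndep.SX
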