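import Pool.Agent.Lib.MP_f31b39_co.SX.E7
import Pool.Agent.Lib.MP_f31b39_co.SX.Mu

/-!
# SX-E49: `m = 8` modulo 49
-/

namespace TightIndep.SX

open Finset

private abbrev E49_V : Type := ℕ × ℕ × ℕ × ℕ × ℕ × ℕ

/-- some of the equations for the roots `z, z ^ 2, z ^ 3` is false -/
private def E49_chk (y1 y2 y3 y4 y6 y9 : ℕ) : Bool :=
  !(Nat.beq ((y1 * (y1 * y1 + 3 * y2 + 149) + 2 * y3) % 197) 0 &&
    (Nat.beq ((y2 * (y2 * y2 + 3 * y4 + 149) + 2 * y6) % 197) 0 &&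
      Nat.beq ((y3 * (y3 * y3 + 3 * y6 + 149) + 2 * y9) % 197) 0))

private def E49_A : List E49_V := [(141, 293, 356, 356, 141, 293), (293, 356, 141, 141, 293, 356), (356, 141, 293, 293, 356, 141), (3, 3, 3, 3, 3, 3)]

private def E49_C : List E49_V := [(246, 232, 287, 238, 218, 224),
  (63, 224, 259, 136, 296, 363),
  (103, 363, 53, 171, 246, 180),
  (173, 180, 235, 287, 63, 189),
  (83, 189, 238, 259, 103, 242),
  (218, 242, 136, 53, 173, 146),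
  (296, 146, 171, 235, 83, 232)]

private def E49_K (x1 x2 x3 x4 x6 x9 : ℕ) : Bool :=
  E49_C.all fun c => E49_A.all fun a =>
    E49_chk (x1 + (c.1 + a.1)) (x2 + (c.2.1 + a.2.1)) (x3 + (c.2.2.1 + a.2.2.1)) (x4 + (c.2.2.2.1 + a.2.2.2.1))
      (x6 + (c.2.2.2.2.1 + a.2.2.2.2.1)) (x9 + (c.2.2.2.2.2 + a.2.2.2.2.2))

private def E49_D (d0 d1 d2 d3 d4 d5 d6 : ℕ) : Bool :=
  E49_K (53 + (180 * d0 + 146 * d1 + 363 * d2 + 242 * d3 + 224 * d4 + 189 * d5 + 232 * d6))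
    (246 + (287 * d0 + 235 * d1 + 171 * d2 + 53 * d3 + 136 * d4 + 259 * d5 + 238 * d6))
    (180 + (63 * d0 + 83 * d1 + 246 * d2 + 173 * d3 + 296 * d4 + 103 * d5 + 218 * d6))
    (232 + (218 * d0 + 63 * d1 + 83 * d2 + 246 * d3 + 173 * d4 + 296 * d5 + 103 * d6))
    (287 + (224 * d0 + 189 * d1 + 232 * d2 + 180 * d3 + 146 * d4 + 363 * d5 + 242 * d6))
    (63 + (259 * d0 + 238 * d1 + 287 * d2 + 235 * d3 + 171 * d4 + 53 * d5 + 136 * d6))

private theorem E49_big : ((List.range 6).all fun d0 => (List.range (6 - d0)).all fun d1 =>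
    (List.range (6 - d0 - d1)).all fun d2 => (List.range (6 - d0 - d1 - d2)).all fun d3 =>
      (List.range (6 - d0 - d1 - d2 - d3)).all fun d4 => (List.range (6 - d0 - d1 - d2 - d3 - d4)).all fun d5 =>
        E49_D d0 d1 d2 d3 d4 d5 (5 - d0 - d1 - d2 - d3 - d4 - d5)) = true := by
  decide +kernel

private theorem E49_big' (d0 d1 d2 d3 d4 d5 d6 : ℕ) (h : d0 + d1 + d2 + d3 + d4 + d5 + d6 = 5) :
    E49_D d0 d1 d2 d3 d4 d5 d6 = true := by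
  have h1 := E49_big
  simp only [List.all_eq_true, List.mem_range] at h1
  have h2 := h1 d0 (by omega) d1 (by omega) d2 (by omega) d3 (by omega) d4 (by omega) d5 (by omega)
  have e : 5 - d0 - d1 - d2 - d3 - d4 - d5 = d6 := by omega
  rwa [e] at h2

private theorem E49_cC (v0 v1 v2 v3 v4 v5 v6 : ℕ) (h : v0 + v1 + v2 + v3 + v4 + v5 + v6 = 1) : ∃ c ∈ E49_C,
    246 * v0 + 63 * v1 + 103 * v2 + 173 * v3 + 83 * v4 + 218 * v5 + 296 * v6 = c.1 ∧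
    232 * v0 + 224 * v1 + 363 * v2 + 180 * v3 + 189 * v4 + 242 * v5 + 146 * v6 = c.2.1 ∧
    287 * v0 + 259 * v1 + 53 * v2 + 235 * v3 + 238 * v4 + 136 * v5 + 171 * v6 = c.2.2.1 ∧
    238 * v0 + 136 * v1 + 171 * v2 + 287 * v3 + 259 * v4 + 53 * v5 + 235 * v6 = c.2.2.2.1 ∧
    218 * v0 + 296 * v1 + 246 * v2 + 63 * v3 + 103 * v4 + 173 * v5 + 83 * v6 = c.2.2.2.2.1 ∧
    224 * v0 + 363 * v1 + 180 * v2 + 189 * v3 + 242 * v4 + 146 * v5 + 232 * v6 = c.2.2.2.2.2 := by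
  have h1 : (v0 = 1 ∧ v1 = 0 ∧ v2 = 0 ∧ v3 = 0 ∧ v4 = 0 ∧ v5 = 0 ∧ v6 = 0) ∨
    (v0 = 0 ∧ v1 = 1 ∧ v2 = 0 ∧ v3 = 0 ∧ v4 = 0 ∧ v5 = 0 ∧ v6 = 0) ∨
    (v0 = 0 ∧ v1 = 0 ∧ v2 = 1 ∧ v3 = 0 ∧ v4 = 0 ∧ v5 = 0 ∧ v6 = 0) ∨
    (v0 = 0 ∧ v1 = 0 ∧ v2 = 0 ∧ v3 = 1 ∧ v4 = 0 ∧ v5 = 0 ∧ v6 = 0) ∨
    (v0 = 0 ∧ v1 = 0 ∧ v2 = 0 ∧ v3 = 0 ∧ v4 = 1 ∧ v5 = 0 ∧ v6 = 0) ∨
    (v0 = 0 ∧ v1 = 0 ∧ v2 = 0 ∧ v3 = 0 ∧ v4 = 0 ∧ v5 = 1 ∧ v6 = 0) ∨
    (v0 = 0 ∧ v1 = 0 ∧ v2 = 0 ∧ v3 = 0 ∧ v4 = 0 ∧ v5 = 0 ∧ v6 = 1) := by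
    rcases Nat.eq_zero_or_pos v0 with g0 | g0
    · rcases Nat.eq_zero_or_pos v1 with g1 | g1
      · rcases Nat.eq_zero_or_pos v2 with g2 | g2
        · rcases Nat.eq_zero_or_pos v3 with g3 | g3
          · rcases Nat.eq_zero_or_pos v4 with g4 | g4
            · rcases Nat.eq_zero_or_pos v5 with g5 | g5
              · exact Or.inr (Or.inr (Or.inr (Or.inr (Or.inr (Or.inr ⟨g0, g1, g2, g3, g4, g5, by omega⟩)))))
              · exact Or.inr (Or.inr (Or.inr (Or.inr (Or.inr (Or.inl ⟨g0, g1, g2, g3, g4, by omega, by omega⟩)))))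
            · exact Or.inr (Or.inr (Or.inr (Or.inr (Or.inl ⟨g0, g1, g2, g3, by omega, by omega, by omega⟩))))
          · exact Or.inr (Or.inr (Or.inr (Or.inl ⟨g0, g1, g2, by omega, by omega, by omega, by omega⟩)))
        · exact Or.inr (Or.inr (Or.inl ⟨g0, g1, by omega, by omega, by omega, by omega, by omega⟩))
      · exact Or.inr (Or.inl ⟨g0, by omega, by omega, by omega, by omega, by omega, by omega⟩)
    · exact Or.inl ⟨by omega, by omega, by omega, by omega, by omega, by omega, by omega⟩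
  rcases h1 with ⟨rfl, rfl, rfl, rfl, rfl, rfl, rfl⟩ |
    ⟨rfl, rfl, rfl, rfl, rfl, rfl, rfl⟩ |
    ⟨rfl, rfl, rfl, rfl, rfl, rfl, rfl⟩ |
    ⟨rfl, rfl, rfl, rfl, rfl, rfl, rfl⟩ |
    ⟨rfl, rfl, rfl, rfl, rfl, rfl, rfl⟩ |
    ⟨rfl, rfl, rfl, rfl, rfl, rfl, rfl⟩ |
    ⟨rfl, rfl, rfl, rfl, rfl, rfl, rfl⟩
  · exact ⟨(246, 232, 287, 238, 218, 224), by decide, rfl, rfl, rfl, rfl, rfl, rfl⟩
  · exact ⟨(63, 224, 259, 136, 296, 363), by decide, rfl, rfl, rfl, rfl, rfl, rfl⟩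
  · exact ⟨(103, 363, 53, 171, 246, 180), by decide, rfl, rfl, rfl, rfl, rfl, rfl⟩
  · exact ⟨(173, 180, 235, 287, 63, 189), by decide, rfl, rfl, rfl, rfl, rfl, rfl⟩
  · exact ⟨(83, 189, 238, 259, 103, 242), by decide, rfl, rfl, rfl, rfl, rfl, rfl⟩
  · exact ⟨(218, 242, 136, 53, 173, 146), by decide, rfl, rfl, rfl, rfl, rfl, rfl⟩
  · exact ⟨(296, 146, 171, 235, 83, 232), by decide, rfl, rfl, rfl, rfl, rfl, rfl⟩

private theorem E49_cA (v0 v1 v2 v3 : ℕ) (h0 : 1 ≤ v0) (h : v0 + 2 * (v1 + v2 + v3) = 3) : ∃ c ∈ E49_A,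
    v0 + 140 * v1 + 292 * v2 + 355 * v3 = c.1 ∧
    v0 + 292 * v1 + 355 * v2 + 140 * v3 = c.2.1 ∧
    v0 + 355 * v1 + 140 * v2 + 292 * v3 = c.2.2.1 ∧
    v0 + 355 * v1 + 140 * v2 + 292 * v3 = c.2.2.2.1 ∧
    v0 + 140 * v1 + 292 * v2 + 355 * v3 = c.2.2.2.2.1 ∧
    v0 + 292 * v1 + 355 * v2 + 140 * v3 = c.2.2.2.2.2 := by
  have h1 : (v0 = 1 ∧ v1 = 1 ∧ v2 = 0 ∧ v3 = 0) ∨
    (v0 = 1 ∧ v1 = 0 ∧ v2 = 1 ∧ v3 = 0) ∨
    (v0 = 1 ∧ v1 = 0 ∧ v2 = 0 ∧ v3 = 1) ∨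
    (v0 = 3 ∧ v1 = 0 ∧ v2 = 0 ∧ v3 = 0) := by
    omega
  rcases h1 with ⟨rfl, rfl, rfl, rfl⟩ | ⟨rfl, rfl, rfl, rfl⟩ | ⟨rfl, rfl, rfl, rfl⟩ | ⟨rfl, rfl, rfl, rfl⟩
  · exact ⟨(141, 293, 356, 356, 141, 293), by decide, rfl, rfl, rfl, rfl, rfl, rfl⟩
  · exact ⟨(293, 356, 141, 141, 293, 356), by decide, rfl, rfl, rfl, rfl, rfl, rfl⟩
  · exact ⟨(356, 141, 293, 293, 356, 141), by decide, rfl, rfl, rfl, rfl, rfl, rfl⟩
  · exact ⟨(3, 3, 3, 3, 3, 3), by decide, rfl, rfl, rfl, rfl, rfl, rfl⟩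

/-- the value of the sum at `16 ^ j`, as a natural number -/
private def E49_M (u : ℕ → ℕ) (j : ℕ) : ℕ := ∑ i ∈ range 49, u i * (16 ^ (j * i % 49) % 197)

private theorem E49_cast (T : ZMod 49 → ℕ) (j : ℕ) :
    ∑ c : ZMod 49, (T c : ZMod 197) * ((16 : ZMod 197) ^ j) ^ c.val = ((E49_M (fun i => T (i : ZMod 49)) j : ℕ) : ZMod 197) := by
  have h16 : (16 : ZMod 197) ^ 49 = 1 := by decide +kernel
  have h1 : ∑ c : ZMod 49, (T c : ZMod 197) * ((16 : ZMod 197) ^ j) ^ c.val =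
      ∑ i ∈ range 49, (T ((i : ℕ) : ZMod 49) : ZMod 197) * ((16 : ZMod 197) ^ j) ^ i := by
    rw [← Fin.sum_univ_eq_sum_range (fun i => (T ((i : ℕ) : ZMod 49) : ZMod 197) * ((16 : ZMod 197) ^ j) ^ i) 49]
    refine Finset.sum_congr rfl fun c _ => ?_
    have e : ((c.val : ℕ) : ZMod 49) = c := ZMod.natCast_zmod_val (n := 49) c
    show (T c : ZMod 197) * ((16 : ZMod 197) ^ j) ^ c.val = (T ((c.val : ℕ) : ZMod 49) : ZMod 197) * ((16 : ZMod 197) ^ j) ^ c.val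
    rw [e]
  rw [h1]
  unfold E49_M
  push_cast
  refine Finset.sum_congr rfl fun i _ => ?_
  rw [ZMod.natCast_mod, ← pow_mul, pow_eq_pow_mod (j * i) h16]
  push_cast
  rfl

private theorem E49_eq (y1 y2 y3 : ℕ) (h : (y1 : ZMod 197) ^ 3 + 3 * (y1 : ZMod 197) * (y2 : ZMod 197) + 2 * (y3 : ZMod 197) =
    6 * ((8 : ℕ) : ZMod 197) * (y1 : ZMod 197)) : Nat.beq ((y1 * (y1 * y1 + 3 * y2 + 149) + 2 * y3) % 197) 0 = true := by
  have h197 : (197 : ZMod 197) = 0 := by decide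
  have h1 : ((y1 * (y1 * y1 + 3 * y2 + 149) + 2 * y3 : ℕ) : ZMod 197) = 0 := by
    push_cast at h ⊢
    linear_combination h + (y1 : ZMod 197) * h197
  have h2 : (y1 * (y1 * y1 + 3 * y2 + 149) + 2 * y3) % 197 = 0 :=
    Nat.mod_eq_zero_of_dvd ((ZMod.natCast_eq_zero_iff _ _).1 h1)
  rw [h2]
  rfl

private noncomputable def E49_P (T : ZMod 49 → ℕ) (c' : ZMod 7) : ℕ :=
  ∑ c ∈ univ.filter (fun c : ZMod 49 => ZMod.castHom (by norm_num : 7 ∣ 49) (ZMod 7) c = c'), T c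

private theorem E49_P_mul (T : ZMod 49 → ℕ) (j : (ZMod 49)ˣ) (c' : ZMod 7) :
    E49_P (fun c => T (j * c)) c' = E49_P T (ZMod.castHom (by norm_num : 7 ∣ 49) (ZMod 7) (j : ZMod 49) * c') := by
  unfold E49_P
  refine Finset.sum_equiv (Units.mulLeft j) ?_ fun c _ => rfl
  intro c
  rw [Finset.mem_filter, Finset.mem_filter]
  refine and_congr (by simp) ?_
  have hu : IsUnit (ZMod.castHom (by norm_num : 7 ∣ 49) (ZMod 7) (j : ZMod 49)) := j.isUnit.map _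
  have e : (Units.mulLeft j) c = (j : ZMod 49) * c := rfl
  rw [e, map_mul]
  exact (hu.mul_right_inj).symm

private theorem E49_filter : ∀ r : Fin 4, univ.filter (fun c : ZMod 49 =>
    ZMod.castHom (by norm_num : 7 ∣ 49) (ZMod 7) c = ((r : ℕ) : ZMod 7)) =
      (range 7).image (fun k => (((r : ℕ) + 7 * k : ℕ) : ZMod 49)) := by
  decide +kernel

private theorem E49_inj : ∀ r : Fin 4, ∀ a ∈ range 7, ∀ b ∈ range 7,
    (((r : ℕ) + 7 * a : ℕ) : ZMod 49) = (((r : ℕ) + 7 * b : ℕ) : ZMod 49) → a = b := by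
  decide +kernel

private theorem E49_P_eq (T : ZMod 49 → ℕ) (r : Fin 4) :
    E49_P T ((r : ℕ) : ZMod 7) = ∑ k ∈ range 7, T (((r : ℕ) + 7 * k : ℕ) : ZMod 49) := by
  unfold E49_P
  rw [E49_filter r, Finset.sum_image]
  intro a ha b hb hab
  exact E49_inj r a ha b hb hab

private theorem E49_root (j : ℕ) (hj : j = 1 ∨ j = 2 ∨ j = 3) :
    Polynomial.aeval ((16 : ZMod 197) ^ j) (Polynomial.cyclotomic 49 ℤ) = 0 := by
  have e : Polynomial.cyclotomic 49 ℤ = ∑ i ∈ range 7, ((Polynomial.X : Polynomial ℤ) ^ (7 ^ 1)) ^ i := by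
    have h := Polynomial.cyclotomic_prime_pow_eq_geom_sum (R := ℤ) (p := 7) (n := 1) (by norm_num)
    norm_num at h
    rw [h]
    norm_num
  rw [e, map_sum]
  simp only [map_pow, Polynomial.aeval_X]
  rcases hj with rfl | rfl | rfl <;> decide +kernel

private theorem E49_core (T : ZMod 49 → ℕ) (hT : Cls 8 49 T) (h1 : T 1 = 1) (p0 : E49_P T 0 = 3) (p1 : E49_P T 1 = 1)
    (p2 : E49_P T 2 = 1) (p3 : E49_P T 3 = 5) : False := by
  obtain ⟨u, hu⟩ : ∃ u : ℕ → ℕ, ∀ i, u i = T (i : ZMod 49) := ⟨fun i => T (i : ZMod 49), fun _ => rfl⟩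
  have q0 : ∑ k ∈ range 7, u (0 + 7 * k) = 3 := by
    have h := E49_P_eq T 0
    simp only [hu]
    exact h.symm.trans p0
  have q1 : ∑ k ∈ range 7, u (1 + 7 * k) = 1 := by
    have h := E49_P_eq T 1
    simp only [hu]
    exact h.symm.trans p1
  have q2 : ∑ k ∈ range 7, u (2 + 7 * k) = 1 := by
    have h := E49_P_eq T 2
    simp only [hu]
    exact h.symm.trans p2
  have q3 : ∑ k ∈ range 7, u (3 + 7 * k) = 5 := by
    have h := E49_P_eq T 3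
    simp only [hu]
    exact h.symm.trans p3
  simp only [Finset.sum_range_succ, Finset.sum_range_zero] at q0 q1 q2 q3
  norm_num at q0 q1 q2 q3
  have u1 : u 1 = 1 := by
    rw [hu, Nat.cast_one, h1]
  have u0 : 1 ≤ u 0 := by
    rw [hu]
    have := hT.pos0
    simpa using this
  have hs : ∀ i, i ≤ 49 → u (49 - i) = u i := by
    intro i hi
    have h49 : ((49 : ℕ) : ZMod 49) = 0 := by decide
    rw [hu, hu, Nat.cast_sub hi, h49, zero_sub, hT.symm (i : ZMod 49)]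

  have s7 : u 42 = u 7 := hs 7 (by norm_num)
  have s14 : u 35 = u 14 := hs 14 (by norm_num)
  have s21 : u 28 = u 21 := hs 21 (by norm_num)
  have s1 : u 48 = u 1 := hs 1 (by norm_num)
  have s8 : u 41 = u 8 := hs 8 (by norm_num)
  have s15 : u 34 = u 15 := hs 15 (by norm_num)
  have s22 : u 27 = u 22 := hs 22 (by norm_num)
  have s29 : u 20 = u 29 := hs 29 (by norm_num)
  have s36 : u 13 = u 36 := hs 36 (by norm_num)
  have s43 : u 6 = u 43 := hs 43 (by norm_num)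
  have s2 : u 47 = u 2 := hs 2 (by norm_num)
  have s9 : u 40 = u 9 := hs 9 (by norm_num)
  have s16 : u 33 = u 16 := hs 16 (by norm_num)
  have s23 : u 26 = u 23 := hs 23 (by norm_num)
  have s30 : u 19 = u 30 := hs 30 (by norm_num)
  have s37 : u 12 = u 37 := hs 37 (by norm_num)
  have s44 : u 5 = u 44 := hs 44 (by norm_num)
  have s3 : u 46 = u 3 := hs 3 (by norm_num)
  have s10 : u 39 = u 10 := hs 10 (by norm_num)
  have s17 : u 32 = u 17 := hs 17 (by norm_num)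
  have s24 : u 25 = u 24 := hs 24 (by norm_num)
  have s31 : u 18 = u 31 := hs 31 (by norm_num)
  have s38 : u 11 = u 38 := hs 38 (by norm_num)
  have s45 : u 4 = u 45 := hs 45 (by norm_num)
  have z1 : u 8 = 0 ∧ u 15 = 0 ∧ u 22 = 0 ∧ u 29 = 0 ∧ u 36 = 0 ∧ u 43 = 0 := by
    clear q0 q2 q3 hs s7 s14 s21
    omega
  obtain ⟨z8, z15, z22, z29, z36, z43⟩ := z1
  have hM : ∀ j, ∑ c : ZMod 49, (T c : ZMod 197) * ((16 : ZMod 197) ^ j) ^ c.val = ((E49_M u j : ℕ) : ZMod 197) := by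
    intro j
    have e : u = fun i : ℕ => T (i : ZMod 49) := funext hu
    rw [e]
    exact E49_cast T j
  have hE : ∀ j, j = 1 ∨ j = 2 ∨ j = 3 →
      Nat.beq ((E49_M u j * (E49_M u j * E49_M u j + 3 * E49_M u (j * 2) + 149) + 2 * E49_M u (j * 3)) % 197) 0 = true := by
    intro j hj
    apply E49_eq
    have h := hT.eqn 49 dvd_rfl (by norm_num) (ZMod 197) ((16 : ZMod 197) ^ j) (E49_root j hj)
    rw [← pow_mul, ← pow_mul, hM, hM, hM] at h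
    exact h
  have hE1 := hE 1 (Or.inl rfl)
  have hE2 := hE 2 (Or.inr (Or.inl rfl))
  have hE3 := hE 3 (Or.inr (Or.inr rfl))
  norm_num only at hE1 hE2 hE3
  obtain ⟨c, hc, c1, c2, c3, c4, c6, c9⟩ := E49_cC (u 2) (u 9) (u 16) (u 23) (u 30) (u 37) (u 44) (by omega)
  obtain ⟨a, ha, a1, a2, a3, a4, a6, a9⟩ := E49_cA (u 0) (u 7) (u 14) (u 21) u0 (by omega)
  have hbig := E49_big' (u 3) (u 10) (u 17) (u 24) (u 31) (u 38) (u 45) (by omega)
  unfold E49_D E49_K at hbig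
  simp only [List.all_eq_true] at hbig
  have hk := hbig c hc a ha

  have m1 : E49_M u 1 = (53 + (180 * u 3 + 146 * u 10 + 363 * u 17 + 242 * u 24 + 224 * u 31 + 189 * u 38 + 232 * u 45)) + (c.1 + a.1) := by
    rw [← c1, ← a1]
    simp only [E49_M, Finset.sum_range_succ, Finset.sum_range_zero, s7, s14, s21, s1, s8, s15, s22, s29, s36, s43, s2, s9, s16, s23, s30, s37, s44, s3, s10, s17, s24, s31, s38, s45, u1, z8, z15, z22, z29, z36, z43]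
    norm_num only
    ring
  have m2 : E49_M u 2 = (246 + (287 * u 3 + 235 * u 10 + 171 * u 17 + 53 * u 24 + 136 * u 31 + 259 * u 38 + 238 * u 45)) + (c.2.1 + a.2.1) := by
    rw [← c2, ← a2]
    simp only [E49_M, Finset.sum_range_succ, Finset.sum_range_zero, s7, s14, s21, s1, s8, s15, s22, s29, s36, s43, s2, s9, s16, s23, s30, s37, s44, s3, s10, s17, s24, s31, s38, s45, u1, z8, z15, z22, z29, z36, z43]
    norm_num only
    ring
  have m3 : E49_M u 3 = (180 + (63 * u 3 + 83 * u 10 + 246 * u 17 + 173 * u 24 + 296 * u 31 + 103 * u 38 + 218 * u 45)) + (c.2.2.1 + a.2.2.1) := by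
    rw [← c3, ← a3]
    simp only [E49_M, Finset.sum_range_succ, Finset.sum_range_zero, s7, s14, s21, s1, s8, s15, s22, s29, s36, s43, s2, s9, s16, s23, s30, s37, s44, s3, s10, s17, s24, s31, s38, s45, u1, z8, z15, z22, z29, z36, z43]
    norm_num only
    ring
  have m4 : E49_M u 4 = (232 + (218 * u 3 + 63 * u 10 + 83 * u 17 + 246 * u 24 + 173 * u 31 + 296 * u 38 + 103 * u 45)) + (c.2.2.2.1 + a.2.2.2.1) := by
    rw [← c4, ← a4]
    simp only [E49_M, Finset.sum_range_succ, Finset.sum_range_zero, s7, s14, s21, s1, s8, s15, s22, s29, s36, s43, s2, s9, s16, s23, s30, s37, s44, s3, s10, s17, s24, s31, s38, s45, u1, z8, z15, z22, z29, z36, z43]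
    norm_num only
    ring
  have m6 : E49_M u 6 = (287 + (224 * u 3 + 189 * u 10 + 232 * u 17 + 180 * u 24 + 146 * u 31 + 363 * u 38 + 242 * u 45)) + (c.2.2.2.2.1 + a.2.2.2.2.1) := by
    rw [← c6, ← a6]
    simp only [E49_M, Finset.sum_range_succ, Finset.sum_range_zero, s7, s14, s21, s1, s8, s15, s22, s29, s36, s43, s2, s9, s16, s23, s30, s37, s44, s3, s10, s17, s24, s31, s38, s45, u1, z8, z15, z22, z29, z36, z43]
    norm_num only
    ring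
  have m9 : E49_M u 9 = (63 + (259 * u 3 + 238 * u 10 + 287 * u 17 + 235 * u 24 + 171 * u 31 + 53 * u 38 + 136 * u 45)) + (c.2.2.2.2.2 + a.2.2.2.2.2) := by
    rw [← c9, ← a9]
    simp only [E49_M, Finset.sum_range_succ, Finset.sum_range_zero, s7, s14, s21, s1, s8, s15, s22, s29, s36, s43, s2, s9, s16, s23, s30, s37, s44, s3, s10, s17, s24, s31, s38, s45, u1, z8, z15, z22, z29, z36, z43]
    norm_num only
    ring
  rw [m1, m2, m3] at hE1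
  rw [m2, m4, m6] at hE2
  rw [m3, m6, m9] at hE3
  unfold E49_chk at hk
  rw [hE1, hE2, hE3] at hk
  exact absurd hk (by decide)

private theorem E49_unit (j : ZMod 49) (k : ZMod 49) (h : j * k = 1) : ∃ v : (ZMod 49)ˣ, (v : ZMod 49) = j :=
  ⟨⟨j, k, h, by rw [mul_comm]; exact h⟩, rfl⟩

private theorem E49_core2 (T : ZMod 49 → ℕ) (hT : Cls 8 49 T) (p0 : E49_P T 0 = 3) (p1 : E49_P T 1 = 1)
    (p2 : E49_P T 2 = 1) (p3 : E49_P T 3 = 5) : False := by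
  have h := E49_P_eq T 1
  have e1 : (((1 : Fin 4) : ℕ) : ZMod 7) = 1 := rfl
  rw [e1, p1] at h
  obtain ⟨k, hk, hk1⟩ : ∃ k ∈ range 7, T ((((1 : Fin 4) : ℕ) + 7 * k : ℕ) : ZMod 49) = 1 := by
    by_contra hcon
    push Not at hcon
    have h2 : ∀ k ∈ range 7, T ((((1 : Fin 4) : ℕ) + 7 * k : ℕ) : ZMod 49) = 0 := by
      intro k hk
      have h3 : T ((((1 : Fin 4) : ℕ) + 7 * k : ℕ) : ZMod 49) ≤ 1 := by
        rw [h]
        exact Finset.single_le_sum (f := fun k => T ((((1 : Fin 4) : ℕ) + 7 * k : ℕ) : ZMod 49)) (fun _ _ => Nat.zero_le _) hk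
      have h4 := hcon k hk
      omega
    rw [Finset.sum_eq_zero h2] at h
    exact one_ne_zero h
  have hun : ∀ k ∈ range 7, ∃ l : ZMod 49, ((((1 : Fin 4) : ℕ) + 7 * k : ℕ) : ZMod 49) * l = 1 := by decide +kernel
  have hca : ∀ k ∈ range 7, ZMod.castHom (by norm_num : 7 ∣ 49) (ZMod 7) ((((1 : Fin 4) : ℕ) + 7 * k : ℕ) : ZMod 49) = 1 := by
    decide +kernel
  obtain ⟨l, hl⟩ := hun k hk
  obtain ⟨v, hv⟩ := E49_unit _ l hl
  have hP : ∀ c', E49_P (fun c => T (v * c)) c' = E49_P T c' := by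
    intro c'
    rw [E49_P_mul, hv, hca k hk, one_mul]
  refine E49_core (fun c => T (v * c)) (mul v T hT) ?_ ?_ ?_ ?_ ?_
  · show T (v * 1) = 1
    rw [mul_one, hv]
    exact hk1
  · rw [hP, p0]
  · rw [hP, p1]
  · rw [hP, p2]
  · rw [hP, p3]

theorem e49 (T : ZMod 49 → ℕ) (hT : Cls 8 49 T) : False := by
  obtain ⟨h0, h⟩ := e7_8 _ (push (by norm_num : 7 ∣ 49) T hT)
  have q0 : E49_P T 0 = 3 := h0
  have hneg : ∀ T : ZMod 49 → ℕ, Cls 8 49 T → ∀ c', E49_P T (-c') = E49_P T c' := fun T hT c' =>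
    (push (by norm_num : 7 ∣ 49) T hT).symm c'
  have h' : (E49_P T 1 = 5 ∧ E49_P T 2 = 1 ∧ E49_P T 3 = 1) ∨ (E49_P T 1 = 1 ∧ E49_P T 2 = 5 ∧ E49_P T 3 = 1) ∨
      (E49_P T 1 = 1 ∧ E49_P T 2 = 1 ∧ E49_P T 3 = 5) := h
  rcases h' with ⟨q1, q2, q3⟩ | ⟨q1, q2, q3⟩ | ⟨q1, q2, q3⟩
  · obtain ⟨v, hv⟩ := E49_unit 5 10 (by decide)
    have hc : ZMod.castHom (by norm_num : 7 ∣ 49) (ZMod 7) (v : ZMod 49) = 5 := by rw [hv]; decide
    have hn := hneg T hT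
    refine E49_core2 (fun c => T (v * c)) (mul v T hT) ?_ ?_ ?_ ?_
    · rw [E49_P_mul, hc, mul_zero, q0]
    · rw [E49_P_mul, hc, mul_one]
      exact (hn 2).trans q2
    · rw [E49_P_mul, hc]
      exact q3
    · rw [E49_P_mul, hc]
      exact q1
  · obtain ⟨v, hv⟩ := E49_unit 3 33 (by decide)
    have hc : ZMod.castHom (by norm_num : 7 ∣ 49) (ZMod 7) (v : ZMod 49) = 3 := by rw [hv]; decide
    have hn := hneg T hT
    refine E49_core2 (fun c => T (v * c)) (mul v T hT) ?_ ?_ ?_ ?_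
    · rw [E49_P_mul, hc, mul_zero, q0]
    · rw [E49_P_mul, hc, mul_one, q3]
    · rw [E49_P_mul, hc]
      exact (hn 1).trans q1
    · rw [E49_P_mul, hc]
      exact q2
  · exact E49_core2 T hT q0 q1 q2 q3

end TightIndep.SX
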