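import Pool.Agent.Lib.MP_f31b39_co.SX.Defs

/-!
# SX-E9: enumeration modulo 9 for `m = 3`
-/

namespace TightIndep.SX

open Finset

private theorem sum9 {M : Type} [AddCommMonoid M] (f : ZMod 9 → M) :
    ∑ c, f c = f 0 + f 1 + f 2 + f 3 + f 4 + f 5 + f 6 + f 7 + f 8 := by
  change ∑ c : Fin 9, f c = _
  simp only [Fin.sum_univ_castSucc, Fin.sum_univ_zero, zero_add]
  rfl

private def pv (T : ZMod 9 → ℕ) (z : ℕ) : ℕ := ∑ c, T c * z ^ c.val

private theorem pv_cast (T : ZMod 9 → ℕ) (z : ℕ) (w : ZMod 19) (h : (z : ZMod 19) = w) :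
    ∑ c, (T c : ZMod 19) * w ^ c.val = ((pv T z : ℕ) : ZMod 19) := by
  unfold pv
  rw [← h]
  push_cast
  rfl

private theorem tr (T : ZMod 9 → ℕ) (hT : Cls 3 9 T) (e : ℕ) (he : e ∣ 9) (h1 : 1 < e) (z : ℕ)
    (hz : Polynomial.aeval (z : ZMod 19) (Polynomial.cyclotomic e ℤ) = 0) :
    (pv T z ^ 3 + 3 * pv T z * pv T (z ^ 2) + 2 * pv T (z ^ 3)) % 19 = (18 * pv T z) % 19 := by
  have h := hT.eqn e he h1 (ZMod 19) (z : ZMod 19) hz
  rw [pv_cast T z _ rfl, pv_cast T (z ^ 2) _ (by push_cast; rfl), pv_cast T (z ^ 3) _ (by push_cast; rfl)] at h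
  rw [← ZMod.natCast_eq_natCast_iff']
  push_cast
  push_cast at h
  rw [h]
  norm_num

private theorem cyc9 : Polynomial.aeval ((4 : ℕ) : ZMod 19) (Polynomial.cyclotomic 9 ℤ) = 0 := by
  have h : Polynomial.cyclotomic 9 ℤ = ∑ i ∈ range 3, (Polynomial.X ^ 3) ^ i := by
    have := Polynomial.cyclotomic_prime_pow_eq_geom_sum (R := ℤ) (p := 3) (n := 1) Nat.prime_three
    simpa using this
  rw [h]
  simp only [Finset.sum_range_succ, Finset.sum_range_zero, map_add, map_pow, Polynomial.aeval_X, map_zero]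
  decide

private theorem cyc3 : Polynomial.aeval ((7 : ℕ) : ZMod 19) (Polynomial.cyclotomic 3 ℤ) = 0 := by
  rw [Polynomial.cyclotomic_three]
  simp only [map_add, map_pow, Polynomial.aeval_X, map_one]
  decide

private theorem pv_eq (T : ZMod 9 → ℕ) (hs : ∀ c, T (-c) = T c) (z : ℕ) :
    pv T z = T 0 + T 1 * (z + z ^ 8) + T 2 * (z ^ 2 + z ^ 7) + T 3 * (z ^ 3 + z ^ 6) + T 4 * (z ^ 4 + z ^ 5) := by
  unfold pv
  rw [sum9]
  have h8 : T 8 = T 1 := hs 1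
  have h7 : T 7 = T 2 := hs 2
  have h6 : T 6 = T 3 := hs 3
  have h5 : T 5 = T 4 := hs 4
  rw [h8, h7, h6, h5]
  have v0 : (0 : ZMod 9).val = 0 := rfl
  have v1 : (1 : ZMod 9).val = 1 := rfl
  have v2 : (2 : ZMod 9).val = 2 := rfl
  have v3 : (3 : ZMod 9).val = 3 := rfl
  have v4 : (4 : ZMod 9).val = 4 := rfl
  have v5 : (5 : ZMod 9).val = 5 := rfl
  have v6 : (6 : ZMod 9).val = 6 := rfl
  have v7 : (7 : ZMod 9).val = 7 := rfl
  have v8 : (8 : ZMod 9).val = 8 := rfl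
  rw [v0, v1, v2, v3, v4, v5, v6, v7, v8]
  ring

private def lin (a b c d z : ℕ) : ℕ :=
  (7 - 2 * (a + b + c + d)) + a * (z + z ^ 8) + b * (z ^ 2 + z ^ 7) + c * (z ^ 3 + z ^ 6) + d * (z ^ 4 + z ^ 5)

private def bad (a b c d z : ℕ) : Bool :=
  (lin a b c d z ^ 3 + 3 * lin a b c d z * lin a b c d (z ^ 2) + 2 * lin a b c d (z ^ 3)) % 19 == (18 * lin a b c d z) % 19

private theorem chk : ∀ a b c d : Fin 4, a.val + b.val + c.val + d.val ≤ 3 →
    (bad a.val b.val c.val d.val 4 && bad a.val b.val c.val d.val 7) = false := by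
  decide +kernel

theorem e9 (T : ZMod 9 → ℕ) (hT : Cls 3 9 T) : False := by
  have hs := hT.sum
  rw [sum9] at hs
  have h8 : T 8 = T 1 := hT.symm 1
  have h7 : T 7 = T 2 := hT.symm 2
  have h6 : T 6 = T 3 := hT.symm 3
  have h5 : T 5 = T 4 := hT.symm 4
  rw [h8, h7, h6, h5] at hs
  have hp := hT.pos0
  have hl : ∀ z, pv T z = lin (T 1) (T 2) (T 3) (T 4) z := by
    intro z
    rw [pv_eq T hT.symm, lin]
    have h0 : T 0 = 7 - 2 * (T 1 + T 2 + T 3 + T 4) := by omega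
    rw [← h0]
  have e1 := tr T hT 9 (dvd_refl 9) (by norm_num) 4 cyc9
  have e2 := tr T hT 3 (by norm_num) (by norm_num) 7 cyc3
  simp only [hl] at e1 e2
  have e3 := chk ⟨T 1, by omega⟩ ⟨T 2, by omega⟩ ⟨T 3, by omega⟩ ⟨T 4, by omega⟩ (by show T 1 + T 2 + T 3 + T 4 ≤ 3; omega)
  have e4 : bad (T 1) (T 2) (T 3) (T 4) 4 = true := by
    unfold bad
    exact beq_iff_eq.2 e1
  have e5 : bad (T 1) (T 2) (T 3) (T 4) 7 = true := by
    unfold bad
    exact beq_iff_eq.2 e2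
  rw [e4, e5] at e3
  exact Bool.noConfusion e3

end TightIndep.SX
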