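import Pool.Agent.Lib.MP_f31b39_co.NO.Ram

/-!
# SX-M35: the second moment for `n = 29 ^ 2 * 71`
-/

namespace TightIndep.SX

open Finset

private theorem M35_sq {ι : Type} [Fintype ι] (g : ι → ZMod 59711) (x : ZMod 59711 → ℝ)
    (hx : ∀ j, (x j : ℂ) = ∑ i, ZMod.stdAddChar (j * g i)) (j : ZMod 59711) :
    ((x j ^ 2 : ℝ) : ℂ) = ∑ p : ι × ι, (ZMod.stdAddChar (j * (g p.1 - g p.2)) : ℂ) := by
  have h2 : (x j : ℂ) = ∑ k, (ZMod.stdAddChar (-(j * g k)) : ℂ) := by
    have h3 : (starRingEnd ℂ) (x j : ℂ) = (x j : ℂ) := Complex.conj_ofReal _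
    rw [← h3, hx, map_sum]
    refine sum_congr rfl fun k _ => ?_
    rw [AddChar.map_neg_eq_conj]
  rw [Complex.ofReal_pow, pow_two]
  nth_rewrite 2 [h2]
  rw [hx, sum_mul_sum, ← univ_product_univ, sum_product]
  refine sum_congr rfl fun i _ => sum_congr rfl fun k _ => ?_
  rw [← AddChar.map_add_eq_mul]
  congr 1
  ring

private theorem M35_p29 : Nat.Prime 29 := by norm_num

private theorem M35_p71 : Nat.Prime 71 := by norm_num

private theorem M35_ord {h : ZMod 59711} (h0 : h ≠ 0) :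
    ((ArithmeticFunction.moebius (addOrderOf h) : ℤ) : ℝ) / (Nat.totient (addOrderOf h) : ℝ) ≤
      if 2059 * h = 0 then 1 / 1960 else 0 := by
  have hR : (0 : ℝ) ≤ if 2059 * h = 0 then 1 / 1960 else 0 := by
    split_ifs
    · norm_num
    · exact le_rfl
  have hd : addOrderOf h ∣ 29 ^ 2 * 71 := by
    have h1 := addOrderOf_dvd_card (x := h)
    rw [ZMod.card] at h1
    exact h1
  obtain ⟨k1, k2, hk1, hk2, hk⟩ := Nat.dvd_mul.1 hd
  obtain ⟨i, hi, rfl⟩ := (Nat.dvd_prime_pow M35_p29).1 hk1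
  have hneg : ∀ p : ℕ, p.Prime → addOrderOf h = p →
      ((ArithmeticFunction.moebius (addOrderOf h) : ℤ) : ℝ) / (Nat.totient (addOrderOf h) : ℝ) ≤
      if 2059 * h = 0 then 1 / 1960 else 0 := by
    intro p hp h1
    refine le_trans ?_ hR
    rw [h1, ArithmeticFunction.moebius_apply_prime hp]
    refine div_nonpos_of_nonpos_of_nonneg ?_ (Nat.cast_nonneg _)
    norm_num
  rcases (Nat.dvd_prime M35_p71).1 hk2 with rfl | rfl
  · rw [mul_one] at hk
    interval_cases i
    · rw [pow_zero] at hk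
      exact absurd (AddMonoid.addOrderOf_eq_one_iff.1 hk.symm) h0
    · rw [pow_one] at hk
      exact hneg 29 M35_p29 hk.symm
    · refine le_trans (le_of_eq ?_) hR
      rw [ArithmeticFunction.moebius_eq_zero_of_not_squarefree, Int.cast_zero, zero_div]
      rw [← hk, pow_two]
      intro hsq
      exact absurd (Nat.isUnit_iff.1 (hsq 29 dvd_rfl)) (by norm_num)
  · interval_cases i
    · rw [pow_zero, one_mul] at hk
      exact hneg 71 M35_p71 hk.symm
    · rw [pow_one] at hk
      have hc : Nat.Coprime 29 71 := by norm_num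
      have h1 : 2059 * h = 0 := by
        have h2 := addOrderOf_nsmul_eq_zero h
        rw [← hk, nsmul_eq_mul] at h2
        have h3 : ((29 * 71 : ℕ) : ZMod 59711) = 2059 := by norm_num
        rwa [h3] at h2
      rw [if_pos h1, ← hk, Nat.totient_mul hc, Nat.totient_prime M35_p29, Nat.totient_prime M35_p71,
        ArithmeticFunction.isMultiplicative_moebius.map_mul_of_coprime hc,
        ArithmeticFunction.moebius_apply_prime M35_p29, ArithmeticFunction.moebius_apply_prime M35_p71]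
      norm_num
    · refine le_trans (le_of_eq ?_) hR
      rw [ArithmeticFunction.moebius_eq_zero_of_not_squarefree, Int.cast_zero, zero_div]
      rw [← hk]
      intro hsq
      exact absurd (Nat.isUnit_iff.1 (hsq 29 ⟨71, by norm_num⟩)) (by norm_num)

private theorem M35_geom (h : ZMod 59711) :
    ∑ l ∈ range 29, (ZMod.stdAddChar ((((2059 * l : ℕ) : ℕ) : ZMod 59711) * h) : ℂ) =
      if 2059 * h = 0 then 29 else 0 := by
  have h1 : ∀ l ∈ range 29, (ZMod.stdAddChar (((2059 * l : ℕ) : ZMod 59711) * h) : ℂ) =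
      (ZMod.stdAddChar (2059 * h)) ^ l := by
    intro l _
    rw [← AddChar.map_nsmul_eq_pow, nsmul_eq_mul]
    congr 1
    push_cast
    ring
  rw [sum_congr rfl h1]
  by_cases h0 : 2059 * h = 0
  · rw [if_pos h0, h0, AddChar.map_zero_eq_one]
    simp
  · rw [if_neg h0]
    have h2 := geom_sum_mul (ZMod.stdAddChar (2059 * h) : ℂ) 29
    have h3 : (ZMod.stdAddChar (2059 * h) : ℂ) ^ 29 = 1 := by
      rw [← AddChar.map_nsmul_eq_pow, nsmul_eq_mul]
      have h4 : ((29 : ℕ) : ZMod 59711) * (2059 * h) = ((59711 : ℕ) : ZMod 59711) * h := by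
        push_cast
        ring
      rw [h4, ZMod.natCast_self, zero_mul, AddChar.map_zero_eq_one]
    rw [h3, sub_self] at h2
    refine (mul_eq_zero.1 h2).resolve_right fun h5 => h0 ?_
    have h6 : (ZMod.stdAddChar (2059 * h) : ℂ) = ZMod.stdAddChar (0 : ZMod 59711) := by
      rw [AddChar.map_zero_eq_one]
      exact sub_eq_zero.1 h5
    exact ZMod.injective_stdAddChar h6

theorem mom35 {ι : Type} [Fintype ι] [DecidableEq ι] (hι : Fintype.card ι = 71) (g : ι → ZMod 59711)
    (hg : Function.Injective g) (x : ZMod 59711 → ℝ)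
    (hx : ∀ j, (x j : ℂ) = ∑ i, ZMod.stdAddChar (j * g i))
    (hM : ∀ j, j ≠ 0 → x j ^ 2 ≤ 261) :
    ∑ u : (ZMod 59711)ˣ, x u ^ 2 ≤ (Nat.totient 59711 : ℝ) * 71.2 := by
  classical
  have hφ : (0 : ℝ) ≤ Nat.totient 59711 := Nat.cast_nonneg _
  generalize hφd : (Nat.totient 59711 : ℝ) = φ at hφ ⊢
  set r : ZMod 59711 → ℝ := fun h =>
    ((ArithmeticFunction.moebius (addOrderOf h) : ℤ) : ℝ) / (Nat.totient (addOrderOf h) : ℝ) with hr
  have hR : ∀ h : ZMod 59711, ∑ u : (ZMod 59711)ˣ, (ZMod.stdAddChar ((u : ZMod 59711) * h) : ℂ) = ((φ * r h : ℝ) : ℂ) := by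
    intro h
    have h1 := NO.ram h
    have h2 : (Nat.totient (addOrderOf h) : ℂ) ≠ 0 := by
      exact_mod_cast (Nat.totient_pos.2 (addOrderOf_pos h)).ne'
    rw [hr, ← hφd]
    push_cast
    rw [mul_div_assoc', eq_div_iff h2, mul_comm, h1]
  have hS : ∑ u : (ZMod 59711)ˣ, x u ^ 2 = ∑ p : ι × ι, φ * r (g p.1 - g p.2) := by
    have h1 : ((∑ u : (ZMod 59711)ˣ, x u ^ 2 : ℝ) : ℂ) = ((∑ p : ι × ι, φ * r (g p.1 - g p.2) : ℝ) : ℂ) := by
      rw [Complex.ofReal_sum, Complex.ofReal_sum,
        sum_congr rfl fun (u : (ZMod 59711)ˣ) _ => M35_sq g x hx (u : ZMod 59711), sum_comm]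
      exact sum_congr rfl fun p _ => hR _
    exact_mod_cast h1
  -- the pairs whose difference is killed by 2059
  set E : Finset (ι × ι) := univ.filter fun p : ι × ι => 2059 * (g p.1 - g p.2) = 0 with hE
  have hP : (29 : ℝ) * (#E : ℝ) = ∑ l ∈ range 29, x ((2059 * l : ℕ) : ZMod 59711) ^ 2 := by
    have h1 : ((29 * (#E : ℝ) : ℝ) : ℂ) = ((∑ l ∈ range 29, x ((2059 * l : ℕ) : ZMod 59711) ^ 2 : ℝ) : ℂ) := by
      rw [Complex.ofReal_sum, sum_congr rfl fun l _ => M35_sq g x hx _, sum_comm,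
        sum_congr rfl fun p _ => M35_geom _, ← sum_filter, sum_const, nsmul_eq_mul]
      push_cast
      ring
    exact_mod_cast h1
  have hx0 : x 0 = 71 := by
    have h1 := hx 0
    simp only [zero_mul, AddChar.map_zero_eq_one, sum_const, card_univ, hι, nsmul_eq_mul, mul_one] at h1
    exact_mod_cast h1
  have hE1 : #E ≤ 425 := by
    have h1 : ∑ l ∈ range 29, x ((2059 * l : ℕ) : ZMod 59711) ^ 2 ≤
        ∑ l ∈ range 29, if l = 0 then (5041 : ℝ) else 261 := by
      refine sum_le_sum fun l hl => ?_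
      by_cases h0 : l = 0
      · rw [if_pos h0, h0, mul_zero, Nat.cast_zero, hx0]
        norm_num
      · rw [if_neg h0]
        refine hM _ fun h2 => ?_
        rw [ZMod.natCast_eq_zero_iff] at h2
        have h3 := Nat.le_of_dvd (by omega) h2
        have h4 := mem_range.1 hl
        omega
    have h2 : (∑ l ∈ range 29, if l = 0 then (5041 : ℝ) else 261) = 12349 := by
      norm_num [sum_range_succ]
    rw [h2, ← hP] at h1
    by_contra hcon
    push Not at hcon
    have h3 : (426 : ℝ) ≤ #E := by exact_mod_cast hcon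
    linarith
  set D : Finset (ι × ι) := univ.filter fun p : ι × ι => p.1 = p.2 with hD
  have hDc : #D = 71 := by
    have h1 : D = univ.image (fun i : ι => (i, i)) := by
      ext p
      simp only [hD, mem_filter, mem_univ, true_and, mem_image]
      constructor
      · intro h
        exact ⟨p.1, Prod.ext rfl h⟩
      · rintro ⟨i, rfl⟩
        rfl
    rw [h1, card_image_of_injective _ (fun i j h => congrArg Prod.fst h), card_univ, hι]
  have hDE : D ⊆ E := by
    intro p hp
    rw [hD, mem_filter] at hp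
    rw [hE, mem_filter]
    refine ⟨mem_univ _, ?_⟩
    rw [hp.2, sub_self, mul_zero]
  have hB : ∀ p : ι × ι, r (g p.1 - g p.2) ≤
      (if p ∈ D then (1 : ℝ) else 0) + if p ∈ E \ D then (1 / 1960 : ℝ) else 0 := by
    intro p
    by_cases h1 : p.1 = p.2
    · have h2 : p ∈ D := by
        rw [hD, mem_filter]
        exact ⟨mem_univ _, h1⟩
      have h3 : p ∉ E \ D := fun h => (mem_sdiff.1 h).2 h2
      rw [if_pos h2, if_neg h3, h1, sub_self, hr]
      simp
    · have h2 : p ∉ D := by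
        rw [hD, mem_filter]
        exact fun h => h1 h.2
      have h3 : g p.1 - g p.2 ≠ 0 := fun h => h1 (hg (sub_eq_zero.1 h))
      have h4 := M35_ord h3
      rw [if_neg h2, zero_add]
      refine h4.trans (le_of_eq ?_)
      by_cases h5 : 2059 * (g p.1 - g p.2) = 0
      · rw [if_pos h5, if_pos]
        rw [mem_sdiff, hE, mem_filter]
        exact ⟨⟨mem_univ _, h5⟩, h2⟩
      · rw [if_neg h5, if_neg]
        rw [mem_sdiff, hE, mem_filter]
        exact fun h => h5 h.1.2
  have hB2 : ∑ p : ι × ι, r (g p.1 - g p.2) ≤ 71.2 := by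
    refine (sum_le_sum fun p _ => hB p).trans ?_
    rw [sum_add_distrib, ← sum_filter, ← sum_filter, filter_mem_eq_inter, filter_mem_eq_inter, univ_inter, univ_inter,
      sum_const, sum_const, nsmul_eq_mul, nsmul_eq_mul, card_sdiff_of_subset hDE, hDc]
    have h1 : ((#E - 71 : ℕ) : ℝ) ≤ 354 := by
      have h2 : #E - 71 ≤ 354 := by omega
      exact_mod_cast h2
    push_cast
    linarith
  rw [hS, ← mul_sum]
  exact mul_le_mul_of_nonneg_left hB2 hφ

end TightIndep.SX
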