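import Pool.Agent.Lib.MP_f31b39_co.SX.C35
import Pool.Agent.Lib.MP_f31b39_co.SX.M35
import Pool.Agent.Lib.MP_f31b39_co.NO.Fin

/-!
# SX-N35: `m = 35` by the norm
-/

namespace TightIndep.SX

open Finset

private theorem N35_pf : (59711 : ℕ).primeFactors.card = 2 := by
  have h1 : (59711 : ℕ) = 29 ^ 2 * 71 := by norm_num
  have h29 : Nat.Prime 29 := by norm_num
  have h71 : Nat.Prime 71 := by norm_num
  rw [h1, Nat.primeFactors_mul (by norm_num) (by norm_num), Nat.primeFactors_prime_pow (by norm_num) h29,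
    h71.primeFactors]
  decide

private theorem N35_aux {n : ℕ} [NeZero n] (hn : 7 ≤ n) (hn3 : Nat.Coprime 3 n)
    (hpf : n.primeFactors.card = 2) {ι : Type} [Fintype ι]
    [DecidableEq ι] (hι : Fintype.card ι = 71) (g : ι → ZMod n) (hg : Function.Injective g)
    (hd : ∀ i k : ι, i ≠ k →
      (univ.filter fun p : ι × ι => g p.1 - g p.2 = g i - g k).card ≤ 2)
    (x : ZMod n → ℝ) (hx : ∀ j, (x j : ℂ) = ∑ i, ZMod.stdAddChar (j * g i))
    (heq : ∀ j : ZMod n, 2 * j ≠ 0 →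
      x j ^ 3 + 3 * x j * x (2 * j) + 2 * x (3 * j) = 210 * x j)
    (h4 : ∀ j : ZMod n, 2 * j ≠ 0 → 4 * j = 0 → x j = 0)
    (hmom : (∀ j : ZMod n, 2 * j ≠ 0 → x j ^ 2 ≤ 261) →
      ∑ u : (ZMod n)ˣ, x u ^ 2 ≤ (Nat.totient n : ℝ) * 71.2) : False := by
  obtain ⟨M, hM0, hM⟩ : ∃ M : ℝ, 0 ≤ M ∧ M ^ 2 = 3 * M + 2 + 210 := by
    refine ⟨3 / 2 + √((210 : ℝ) + 17 / 4), by positivity, ?_⟩
    have h := Real.sq_sqrt (show (0 : ℝ) ≤ 210 + 17 / 4 by norm_num)
    linear_combination h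
  have hM16 : 16 ≤ M := by
    by_contra hcon
    push Not at hcon
    nlinarith
  have hM17 : M ≤ 16.14 := by
    by_contra hcon
    push Not at hcon
    nlinarith
  obtain ⟨h1, h2⟩ := NO.ep_em n (by omega)
  rw [hpf] at h2
  have h2R : 2 * (NO.em n : ℝ) = 4 := by
    have : 2 * NO.em n = 4 := by omega
    exact_mod_cast this
  obtain ⟨-, m2⟩ := NO.mom g hg hd x hx
  have hφ : (0 : ℝ) < Nat.totient n := by
    exact_mod_cast Nat.totient_pos.2 (by omega)
  have hpos : 0 < ∑ u : (ZMod n)ˣ, x u ^ 2 := by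
    refine lt_of_lt_of_le ?_ m2
    apply mul_pos hφ
    rw [h2R, hι]
    norm_num
  have hne : ∃ u : (ZMod n)ˣ, x u ≠ 0 := by
    by_contra hno
    push Not at hno
    rw [Finset.sum_eq_zero fun u _ => by rw [hno u]; ring] at hpos
    exact lt_irrefl _ hpos
  have hN := NO.norm_ge g x hx hne
  have hmax := NO.maxb hn3 x 210 M (by norm_num) heq h4 hM0 (by linarith)
  have hK := hmom fun j hj => by
    have h5 := hmax j hj
    have h6 : x j ^ 2 ≤ M ^ 2 := by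
      rw [← sq_abs]
      exact pow_le_pow_left₀ (abs_nonneg _) h5 2
    linarith
  refine core35 hn hn3 x 210 M 71.2 (by linarith) hmax heq hK hN ?_ ?_ ?_
  · nlinarith
  · linarith
  · have e1 : M ^ 20 ≤ (16.14 : ℝ) ^ 20 := pow_le_pow_left₀ hM0 hM17 20
    have e2 : (160.58 : ℝ) ^ 13 ≤ (210 - 1 - 3 * M) ^ 13 :=
      pow_le_pow_left₀ (by norm_num) (by linarith) 13
    have e3 : (16.14 : ℝ) ^ 20 * 2 ^ 13 < (160.58 : ℝ) ^ 13 := by norm_num
    calc M ^ 20 * 2 ^ 13 ≤ (16.14 : ℝ) ^ 20 * 2 ^ 13 :=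
          mul_le_mul_of_nonneg_right e1 (by norm_num)
      _ < (160.58 : ℝ) ^ 13 := e3
      _ ≤ (210 - 1 - 3 * M) ^ 13 := e2

theorem n35 (a : Fin 35 → ZMod 59711) (h : ∀ v ∈ rel a, v ≠ 0 → 7 ≤ nrm v)
    (hG : Fintype.card (ZMod 59711) = bound 35 6) : False := by
  have hodd : ∀ j : ZMod 59711, 2 * j = 0 → j = 0 := by
    intro j hj
    have hu : IsUnit ((2 : ℕ) : ZMod 59711) := (ZMod.isUnit_iff_coprime 2 59711).2 (by norm_num)
    exact (hu.mul_right_eq_zero).1 (by exact_mod_cast hj)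
  have hn3 : Nat.Coprime 3 59711 := by norm_num
  obtain ⟨x, hx, heq⟩ := NO.x6 a h hG
  have h5 : ∀ v ∈ rel a, v ≠ 0 → 5 ≤ nrm v := fun v hv hv0 => (h v hv hv0).trans' (by norm_num)
  have hcard : Fintype.card (Option (Fin 35 × Bool)) = 71 := by
    rw [Fintype.card_option, Fintype.card_prod, Fintype.card_fin, Fintype.card_bool]
  refine N35_aux (by norm_num) hn3 N35_pf hcard (NO.sg a) (NO.sg_inj a h5) (NO.sg_diff a h5) x hx ?_ ?_ ?_
  · intro j hj
    rw [heq j fun h0 => hj (by rw [h0, mul_zero])]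
    norm_num
  · intro j hj h4
    exact absurd (hodd (2 * j) (by rw [← mul_assoc]; norm_num; exact h4)) hj
  · intro hM
    exact mom35 hcard (NO.sg a) (NO.sg_inj a h5) x hx fun j hj => hM j fun h0 => hj (hodd j h0)

end TightIndep.SX
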