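import Pool.Agent.Lib.MP_f31b39_co.NO.Fin

/-!
# SX-N53: `m = 51` and `m = 53` by the norm
-/

namespace TightIndep.SX

open Finset

private theorem N53_gen {n : ℕ} [NeZero n] {m : ℕ} (a : Fin m → ZMod n)
    (h : ∀ v ∈ rel a, v ≠ 0 → 7 ≤ nrm v) (hG : Fintype.card (ZMod n) = bound m 6)
    (hn : 7 ≤ n) (hn3 : Nat.Coprime 3 n) (hn2 : Nat.Coprime 2 n) (hm : 50 ≤ m)
    (hp : n.primeFactors.card = 3)
    (hF : ∀ M : ℝ, 0 ≤ M → M ^ 2 = 3 * M + 2 + 6 * m → 9 * (2 * (m : ℝ) + 7) ≤ 4 * (6 * m - 3 * M - 3)) :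
    False := by
  obtain ⟨x, hx, heq⟩ := NO.x6 a h hG
  have hodd : ∀ j : ZMod n, 2 * j = 0 → j = 0 := by
    intro j hj
    have hu : IsUnit ((2 : ℕ) : ZMod n) := (ZMod.isUnit_iff_coprime 2 n).2 hn2
    exact (hu.mul_right_eq_zero).1 (by exact_mod_cast hj)
  have h5 : ∀ v ∈ rel a, v ≠ 0 → 5 ≤ nrm v := fun v hv hv0 => (h v hv hv0).trans' (by norm_num)
  have hcard : Fintype.card (Option (Fin m × Bool)) = 2 * m + 1 := by
    rw [Fintype.card_option, Fintype.card_prod, Fintype.card_fin, Fintype.card_bool]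
    ring
  have hmR : (50 : ℝ) ≤ m := by exact_mod_cast hm
  refine NO.norm_arg hn hn3 (NO.sg a) (NO.sg_inj a h5) (NO.sg_diff a h5) x hx (6 * m : ℝ) (by linarith)
    (fun j hj => heq j fun h0 => hj (by rw [h0, mul_zero])) ?_ ?_ ?_
  · intro j hj h4
    exact absurd (hodd (2 * j) (by rw [← mul_assoc]; norm_num; exact h4)) hj
  · rw [hcard, hp]
    push_cast
    linarith
  · intro M hM0 hM
    rw [hcard, hp]
    push_cast
    have := hF M hM0 hM
    linarith

private theorem N53_r1 (M : ℝ) (hM : M ^ 2 = 3 * M + 308) : 12 * M ≤ 231 := by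
  by_contra hcon
  push Not at hcon
  nlinarith

private theorem N53_r2 (M : ℝ) (hM : M ^ 2 = 3 * M + 320) : 12 * M ≤ 243 := by
  by_contra hcon
  push Not at hcon
  nlinarith

theorem n51 (a : Fin 51 → ZMod 182207) (h : ∀ v ∈ rel a, v ≠ 0 → 7 ≤ nrm v)
    (hG : Fintype.card (ZMod 182207) = bound 51 6) : False := by
  refine N53_gen a h hG (by norm_num) (by norm_num) (by norm_num) (by norm_num) ?_ ?_
  · have e : (182207 : ℕ) = 29 * 61 * 103 := by norm_num
    rw [e, Nat.primeFactors_mul (by norm_num) (by norm_num), Nat.primeFactors_mul (by norm_num) (by norm_num),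
      Nat.Prime.primeFactors (by norm_num), Nat.Prime.primeFactors (by norm_num),
      Nat.Prime.primeFactors (by norm_num)]
    decide +kernel
  · intro M hM0 hM
    have h1 := N53_r1 M (by rw [hM]; push_cast; ring)
    clear hG h hM hM0
    push_cast
    linarith

theorem n53 (a : Fin 53 → ZMod 204263) (h : ∀ v ∈ rel a, v ≠ 0 → 7 ≤ nrm v)
    (hG : Fintype.card (ZMod 204263) = bound 53 6) : False := by
  refine N53_gen a h hG (by norm_num) (by norm_num) (by norm_num) (by norm_num) ?_ ?_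
  · have e : (204263 : ℕ) = 23 * 83 * 107 := by norm_num
    rw [e, Nat.primeFactors_mul (by norm_num) (by norm_num), Nat.primeFactors_mul (by norm_num) (by norm_num),
      Nat.Prime.primeFactors (by norm_num), Nat.Prime.primeFactors (by norm_num),
      Nat.Prime.primeFactors (by norm_num)]
    decide +kernel
  · intro M hM0 hM
    have h1 := N53_r2 M (by rw [hM]; push_cast; ring)
    clear hG h hM hM0
    push_cast
    linarith

end TightIndep.SX
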