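import Pool.Agent.Lib.MP_f31b39_co.SX.Defs

/-!
# SX-Cl: the power sums vanish outside the semigroup of the resonant exponents
-/

namespace TightIndep.SX

open Finset

private theorem cl_ends {R : Type} [CommRing R] (u v : ℕ → R) (k : ℕ) (hk : 1 ≤ k)
    (h : ∀ l, 0 < l → l < k → u l = 0 ∨ v (k - l) = 0) : bc u v k = u 0 * v k + u k * v 0 := by
  obtain ⟨n, rfl⟩ : ∃ n, k = n + 1 := ⟨k - 1, by omega⟩
  unfold bc
  rw [sum_range_succ, sum_range_succ', sum_eq_zero]
  · simp
  · intro l hl
    have hl' := mem_range.1 hl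
    rcases h (l + 1) (by omega) (by omega) with h1 | h1
    · rw [h1]; ring
    · rw [h1]; ring

theorem cl {m p B : ℕ} [Fact p.Prime] (S : ℕ → ZMod p) (D : Finset ℕ) (hS0 : S 0 = ((2 * m + 1 : ℕ) : ZMod p))
    (hsys : ∀ k, k ≤ B → bc S (bc S S) k + 3 * bc S (fun l => 2 ^ l * S l) k + 2 * 3 ^ k * S k =
      6 * (m : ZMod p) * S k)
    (hodd : ∀ k, Odd k → S k = 0)
    (hadd : ∀ i ∈ D, ∀ j ∈ D, i + j ≤ B → i + j ∈ D)
    (hB : ∀ k, 1 ≤ k → k ≤ B → Even k → k ∉ D → ¬ (p : ℤ) ∣ br m k) :
    ∀ k, 1 ≤ k → k ≤ B → k ∉ D → S k = 0 := by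
  intro k
  induction k using Nat.strong_induction_on with
  | _ k ih =>
    intro hk1 hkB hkD
    rcases Nat.even_or_odd k with hev | hod
    · have hdich : ∀ k', k' ≤ k → k' ∉ D → ∀ l, 0 < l → l < k' → l ∉ D ∨ k' - l ∉ D := by
        intro k' hk' hkD' l h1 h2
        by_contra hcon
        push Not at hcon
        apply hkD'
        have h3 := hadd l hcon.1 (k' - l) hcon.2 (by omega)
        rwa [Nat.add_sub_cancel' h2.le] at h3
      have hS : ∀ k', k' ≤ k → k' ∉ D → ∀ l, 0 < l → l < k' → S l = 0 ∨ S (k' - l) = 0 := by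
        intro k' hk' hkD' l h1 h2
        rcases hdich k' hk' hkD' l h1 h2 with h3 | h3
        · exact Or.inl (ih l (by omega) h1 (by omega) h3)
        · exact Or.inr (ih (k' - l) (by omega) (by omega) (by omega) h3)
      have hbc : ∀ l, 0 < l → l ≤ k → l ∉ D → bc S S l = 2 * S 0 * S l := by
        intro l h1 h2 h3
        rw [cl_ends S S l h1 (hS l h2 h3)]
        ring
      have hbc0 : bc S S 0 = S 0 ^ 2 := by
        unfold bc
        simp
        ring
      have e1 : bc S (fun l => 2 ^ l * S l) k = S 0 * (2 ^ k * S k) + S k * (2 ^ 0 * S 0) := by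
        refine cl_ends S _ k hk1 fun l h1 h2 => ?_
        rcases hS k le_rfl hkD l h1 h2 with h3 | h3
        · exact Or.inl h3
        · exact Or.inr (by rw [h3, mul_zero])
      have e2 : bc S (bc S S) k = S 0 * bc S S k + S k * bc S S 0 := by
        refine cl_ends S _ k hk1 fun l h1 h2 => ?_
        rcases hdich k le_rfl hkD l h1 h2 with h3 | h3
        · exact Or.inl (ih l h2 h1 (by omega) h3)
        · refine Or.inr ?_
          rw [hbc (k - l) (by omega) (by omega) h3, ih (k - l) (by omega) (by omega) (by omega) h3, mul_zero]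
      have h4 := hsys k hkB
      rw [e2, e1, hbc k hk1 le_rfl hkD, hbc0, hS0] at h4
      have h5 : ((br m k : ℤ) : ZMod p) * S k = 0 := by
        unfold br
        push_cast at h4 ⊢
        linear_combination h4
      have h6 : ((br m k : ℤ) : ZMod p) ≠ 0 := by
        intro h7
        exact hB k hk1 hkB hev hkD ((ZMod.intCast_zmod_eq_zero_iff_dvd _ _).1 h7)
      exact (mul_eq_zero.1 h5).resolve_left h6
    · exact hodd k hod

end TightIndep.SX
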