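import Pool.Agent.Lib.MP_f31b39_co.SX.Defs

/-!
# SX-Iv: inversion and the number of the zeros
-/

namespace TightIndep.SX

open Finset

private theorem flt {p : ℕ} [Fact p.Prime] {c : ZMod p} (hc : c ≠ 0) : c ^ (p - 1) = 1 :=
  ZMod.pow_card_sub_one_eq_one hc

private theorem ker_sum {p : ℕ} [Fact p.Prime] (hp : 3 ≤ p) (x c : ZMod p) (hc : c ≠ 0) :
    ∑ k ∈ range (p - 1), x ^ k * c ^ (p - 1 - k) = if x = 0 then 1 else if x = c then -1 else 0 := by
  by_cases hx : x = 0
  · rw [if_pos hx, hx]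
    obtain ⟨n, hn⟩ : ∃ n, p - 1 = n + 1 := ⟨p - 2, by omega⟩
    rw [hn, sum_range_succ', sum_eq_zero fun k _ => by rw [pow_succ]; ring]
    rw [pow_zero, Nat.sub_zero, ← hn, flt hc]
    ring
  · rw [if_neg hx]
    by_cases hxc : x = c
    · rw [if_pos hxc, hxc]
      have h1 : ∀ k ∈ range (p - 1), c ^ k * c ^ (p - 1 - k) = 1 := by
        intro k hk
        rw [mem_range] at hk
        rw [← pow_add, show k + (p - 1 - k) = p - 1 by omega, flt hc]
      rw [sum_congr rfl h1, sum_const, card_range, nsmul_eq_mul, mul_one,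
        Nat.cast_sub (by omega), ZMod.natCast_self]
      simp
    · rw [if_neg hxc]
      have h1 : ∀ k ∈ range (p - 1), x ^ k * c ^ (p - 1 - k) = c * (x ^ k * c ^ (p - 1 - 1 - k)) := by
        intro k hk
        rw [mem_range] at hk
        rw [show p - 1 - k = (p - 1 - 1 - k) + 1 by omega, pow_succ]
        ring
      rw [sum_congr rfl h1, ← mul_sum]
      have h2 := (Commute.all x c).geom_sum₂_mul (p - 1)
      rw [flt hx, flt hc, sub_self] at h2
      rcases mul_eq_zero.1 h2 with h | h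
      · rw [h, mul_zero]
      · exact absurd (sub_eq_zero.1 h) hxc

theorem inv {p : ℕ} [Fact p.Prime] (hp : 3 ≤ p) (T : ZMod p → ℕ) (c : ZMod p) (hc : c ≠ 0) :
    (T c : ZMod p) = - (ps T 0 - T 0) - ∑ k ∈ Icc 1 (p - 2), ps T k * c ^ (p - 1 - k) := by
  have h1 : ∑ k ∈ range (p - 1), ps T k * c ^ (p - 1 - k) = T 0 - T c := by
    have h2 : ∑ k ∈ range (p - 1), ps T k * c ^ (p - 1 - k) =
        ∑ x, (T x : ZMod p) * (if x = 0 then 1 else if x = c then -1 else 0) := by
      have h3 : ∀ x : ZMod p, (T x : ZMod p) * (if x = 0 then 1 else if x = c then -1 else 0) =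
          ∑ k ∈ range (p - 1), (T x : ZMod p) * x ^ k * c ^ (p - 1 - k) := by
        intro x
        rw [← ker_sum hp x c hc, mul_sum]
        exact sum_congr rfl fun k _ => by ring
      rw [sum_congr rfl fun x _ => h3 x, sum_comm]
      refine sum_congr rfl fun k _ => ?_
      rw [ps, sum_mul]
    rw [h2]
    have h4 : ∀ x : ZMod p, (T x : ZMod p) * (if x = 0 then 1 else if x = c then -1 else 0) =
        (if x = 0 then (T x : ZMod p) else 0) - (if x = c then (T x : ZMod p) else 0) := by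
      intro x
      by_cases hx : x = 0
      · rw [if_pos hx, if_pos hx, if_neg (by rw [hx]; exact fun h => hc h.symm)]
        ring
      · rw [if_neg hx, if_neg hx]
        by_cases hxc : x = c
        · rw [if_pos hxc, if_pos hxc]
          ring
        · rw [if_neg hxc, if_neg hxc]
          ring
    rw [sum_congr rfl fun x _ => h4 x, sum_sub_distrib, sum_ite_eq', sum_ite_eq']
    simp
  have h5 : ∑ k ∈ range (p - 1), ps T k * c ^ (p - 1 - k) =
      ps T 0 + ∑ k ∈ Icc 1 (p - 2), ps T k * c ^ (p - 1 - k) := by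
    have h6 : range (p - 1) = insert 0 (Icc 1 (p - 2)) := by
      ext k
      simp only [mem_range, mem_insert, mem_Icc]
      omega
    rw [h6, sum_insert (by simp), Nat.sub_zero, flt hc, mul_one]
  rw [h5] at h1
  linear_combination h1

theorem iv {p : ℕ} [Fact p.Prime] (hp : 3 ≤ p) (T : ZMod p → ℕ) (D : Finset ℕ) (s d : ℕ)
    (hs : Nat.Coprime s (p - 1)) (hd : ∀ k ∈ D, k * s % (p - 1) ≤ d)
    (hS : ∀ k, 1 ≤ k → k ≤ p - 2 → k ∉ D → ps T k = 0)
    (hcnt : d + (univ.filter fun c : ZMod p => c ≠ 0 ∧ T c ≠ 0).card + 1 < p) :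
    ∀ c : ZMod p, c ≠ 0 → (T c : ZMod p) = 0 := by
  obtain ⟨s', -, hs'⟩ := Nat.exists_mul_mod_eq_one_of_coprime hs (by omega)
  set y : ZMod p → ZMod p := fun c => (c⁻¹) ^ s' with hy
  have hinv : ∀ c : ZMod p, c ≠ 0 → (c⁻¹) ^ (p - 1) = 1 := fun c hc => flt (inv_ne_zero hc)
  have hys : ∀ c : ZMod p, c ≠ 0 → y c ^ s = c⁻¹ := by
    intro c hc
    rw [hy]
    change ((c⁻¹) ^ s') ^ s = c⁻¹
    rw [← pow_mul, mul_comm, pow_eq_pow_mod _ (hinv c hc), hs', pow_one]
  have hyp : ∀ c : ZMod p, c ≠ 0 → y c ^ (p - 1) = 1 := by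
    intro c hc
    change ((c⁻¹) ^ s') ^ (p - 1) = 1
    rw [← pow_mul, mul_comm, pow_mul, hinv c hc, one_pow]
  have hyk : ∀ c : ZMod p, c ≠ 0 → ∀ k, k ≤ p - 1 → c ^ (p - 1 - k) = y c ^ (k * s % (p - 1)) := by
    intro c hc k hk
    rw [← pow_eq_pow_mod _ (hyp c hc), mul_comm k s, pow_mul, hys c hc, inv_pow]
    have h1 : c ^ (p - 1 - k) * c ^ k = 1 := by
      rw [← pow_add, show p - 1 - k + k = p - 1 by omega, flt hc]
    exact eq_inv_of_mul_eq_one_left h1
  set E : Finset ℕ := (Icc 1 (p - 2)).filter fun k => k ∈ D with hE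
  set Q : Polynomial (ZMod p) := - Polynomial.C (ps T 0 - T 0) -
    ∑ k ∈ E, Polynomial.C (ps T k) * Polynomial.X ^ (k * s % (p - 1)) with hQ
  have hval : ∀ c : ZMod p, c ≠ 0 → Q.eval (y c) = T c := by
    intro c hc
    rw [inv hp T c hc, hQ, Polynomial.eval_sub, Polynomial.eval_neg, Polynomial.eval_C,
      Polynomial.eval_finsetSum]
    congr 1
    rw [hE, sum_filter]
    refine sum_congr rfl fun k hk => ?_
    rw [mem_Icc] at hk
    by_cases hkD : k ∈ D
    · rw [if_pos hkD, Polynomial.eval_mul, Polynomial.eval_C, Polynomial.eval_pow,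
        Polynomial.eval_X, hyk c hc k (by omega)]
    · rw [if_neg hkD, hS k hk.1 hk.2 hkD, zero_mul]
  have hdeg : Q.natDegree ≤ d := by
    rw [hQ]
    refine (Polynomial.natDegree_sub_le _ _).trans (max_le ?_ ?_)
    · rw [Polynomial.natDegree_neg, Polynomial.natDegree_C]
      exact Nat.zero_le _
    · refine Polynomial.natDegree_sum_le_of_forall_le _ _ fun k hk => ?_
      rw [hE, mem_filter] at hk
      exact (Polynomial.natDegree_C_mul_X_pow_le _ _).trans (hd k hk.2)
  set Z : Finset (ZMod p) := univ.filter fun c : ZMod p => c ≠ 0 ∧ T c = 0 with hZ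
  have hinj : Set.InjOn y (Z : Set (ZMod p)) := by
    intro c hc c' hc' h
    rw [hZ, coe_filter] at hc hc'
    have h1 := hys c hc.2.1
    have h2 := hys c' hc'.2.1
    rw [h, h2] at h1
    exact inv_injective h1.symm
  have hcard : (Z.image y).card = Z.card := card_image_of_injOn hinj
  have hcount : Z.card + (univ.filter fun c : ZMod p => c ≠ 0 ∧ T c ≠ 0).card = p - 1 := by
    have h1 : (univ.filter fun c : ZMod p => c ≠ 0).card = p - 1 := by
      have h2 : (univ.filter fun c : ZMod p => c ≠ 0) = univ.erase 0 := by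
        ext c
        simp
      rw [h2, card_erase_of_mem (mem_univ _), card_univ, ZMod.card]
    rw [← h1, ← card_filter_add_card_filter_not (s := univ.filter fun c : ZMod p => c ≠ 0)
      (fun c => T c = 0), filter_filter, filter_filter]
  have hQ0 : Q = 0 := by
    refine Polynomial.eq_zero_of_natDegree_lt_card_of_eval_eq_zero' Q (Z.image y) ?_ ?_
    · intro t ht
      rw [mem_image] at ht
      obtain ⟨c, hc, rfl⟩ := ht
      rw [hZ, mem_filter] at hc
      rw [hval c hc.2.1, hc.2.2, Nat.cast_zero]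
    · rw [hcard]
      omega
  intro c hc
  rw [← hval c hc, hQ0, Polynomial.eval_zero]

end TightIndep.SX
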