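import Pool.Agent.Lib.MP_f31b39_co.SX.Pw
import Pool.Agent.Lib.MP_f31b39_co.SX.Cl
import Pool.Agent.Lib.MP_f31b39_co.SX.Iv
import Pool.Agent.Lib.MP_f31b39_co.SX.Nw

/-!
# SX-Pr: criteria modulo a prime
-/

namespace TightIndep.SX

open Finset

private theorem pr_geo {d : ℕ} [NeZero d] (hd : 1 < d) (w : ℂ) (hw : IsPrimitiveRoot w d) :
    ∑ c : ZMod d, w ^ c.val = 0 := by
  rw [← hw.geom_sum_eq_zero hd]
  refine sum_nbij' (fun c : ZMod d => c.val) (fun i : ℕ => (i : ZMod d)) ?_ ?_ ?_ ?_ ?_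
  · intro c _
    exact mem_range.2 (ZMod.val_lt c)
  · intro i _
    exact mem_univ _
  · intro c _
    exact ZMod.natCast_zmod_val c
  · intro i hi
    exact ZMod.val_cast_of_lt (mem_range.1 hi)
  · intro c _
    rfl

private theorem pr_sum {d : ℕ} [NeZero d] (hd : 1 < d) (T : ZMod d → ℕ) (v : ℕ) (hv : ∀ c, c ≠ 0 → T c = v)
    (w : ℂ) (hw : IsPrimitiveRoot w d) : ∑ c, (T c : ℂ) * w ^ c.val = (T 0 : ℂ) - v := by
  have h1 : ∀ c : ZMod d, (T c : ℂ) * w ^ c.val = v * w ^ c.val + (if c = 0 then ((T 0 : ℂ) - v) else 0) := by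
    intro c
    by_cases hc : c = 0
    · subst hc
      rw [ZMod.val_zero, if_pos rfl, pow_zero]
      ring
    · rw [if_neg hc, hv c hc, add_zero]
  rw [sum_congr rfl (fun c _ => h1 c), sum_add_distrib, ← mul_sum, pr_geo hd w hw, mul_zero, zero_add,
    sum_ite_eq' univ (0 : ZMod d), if_pos (mem_univ _)]

theorem cst {m d : ℕ} [NeZero d] (T : ZMod d → ℕ) (hT : Cls m d T) (hd : 1 < d) (h6 : Nat.Coprime 6 d) (v : ℕ)
    (hv : ∀ c, c ≠ 0 → T c = v) :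
    (2 * m + 1 - d * v : ℤ) * ((2 * m + 1 - d * v : ℤ) ^ 2 + 3 * (2 * m + 1 - d * v : ℤ) + 2 - 6 * m) = 0 := by
  have hx : (T 0 : ℤ) - v = 2 * m + 1 - d * v := by
    have h1 : ∀ c : ZMod d, (T c : ℤ) = v + (if c = 0 then ((T 0 : ℤ) - v) else 0) := by
      intro c
      by_cases hc : c = 0
      · subst hc
        rw [if_pos rfl]
        ring
      · rw [if_neg hc, hv c hc, add_zero]
    have h2 : ∑ c : ZMod d, (T c : ℤ) = 2 * m + 1 := by
      have := hT.sum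
      exact_mod_cast this
    rw [sum_congr rfl (fun c _ => h1 c), sum_add_distrib, sum_ite_eq' univ (0 : ZMod d), if_pos (mem_univ _),
      sum_const, card_univ, ZMod.card, nsmul_eq_mul] at h2
    linarith
  obtain ⟨z, hz⟩ : ∃ z : ℂ, IsPrimitiveRoot z d := ⟨_, Complex.isPrimitiveRoot_exp d (NeZero.ne d)⟩
  have h2d : Nat.Coprime 2 d := Nat.Coprime.coprime_dvd_left (by norm_num) h6
  have h3d : Nat.Coprime 3 d := Nat.Coprime.coprime_dvd_left (by norm_num) h6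
  have hz2 : IsPrimitiveRoot (z ^ 2) d := hz.pow_of_coprime 2 h2d
  have hz3 : IsPrimitiveRoot (z ^ 3) d := hz.pow_of_coprime 3 h3d
  have hcyc : Polynomial.aeval z (Polynomial.cyclotomic d ℤ) = 0 := by
    have h1 := hz.isRoot_cyclotomic (Nat.pos_of_ne_zero (NeZero.ne d))
    rw [Polynomial.IsRoot.def, ← Polynomial.map_cyclotomic_int, Polynomial.eval_map] at h1
    exact h1
  have heq := hT.eqn d dvd_rfl hd ℂ z hcyc
  rw [pr_sum hd T v hv z hz, pr_sum hd T v hv _ hz2, pr_sum hd T v hv _ hz3] at heq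
  rw [← hx]
  have h5 : (((T 0 : ℤ) - v : ℤ) : ℂ) ^ 3 + 3 * (((T 0 : ℤ) - v : ℤ) : ℂ) * (((T 0 : ℤ) - v : ℤ) : ℂ) +
      2 * (((T 0 : ℤ) - v : ℤ) : ℂ) = 6 * ((m : ℤ) : ℂ) * (((T 0 : ℤ) - v : ℤ) : ℂ) := by
    push_cast
    linear_combination heq
  have h6 : ((T 0 : ℤ) - v) ^ 3 + 3 * ((T 0 : ℤ) - v) * ((T 0 : ℤ) - v) + 2 * ((T 0 : ℤ) - v) =
      6 * (m : ℤ) * ((T 0 : ℤ) - v) := by exact_mod_cast h5
  linear_combination h6

private theorem pr_odd {m p : ℕ} [Fact p.Prime] (T : ZMod p → ℕ) (hT : Cls m p T) (hp : 5 ≤ p) (k : ℕ) (hk : Odd k) :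
    ps T k = 0 := by
  have h1 : ps T k = - ps T k := by
    conv_lhs => rw [ps, ← Equiv.sum_comp (Equiv.neg (ZMod p))]
    rw [ps, ← sum_neg_distrib]
    refine sum_congr rfl fun c _ => ?_
    rw [Equiv.neg_apply, hT.symm, hk.neg_pow]
    ring
  have h2 : (2 : ZMod p) * ps T k = 0 := by linear_combination h1
  have h3 : (2 : ZMod p) ≠ 0 := by
    have h4 : ((2 : ℕ) : ZMod p) ≠ 0 := by
      rw [Ne, ZMod.natCast_eq_zero_iff]
      intro h
      have := Nat.le_of_dvd (by norm_num) h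
      omega
    exact_mod_cast h4
  exact (mul_eq_zero.1 h2).resolve_left h3

theorem pz {m p : ℕ} [Fact p.Prime] (T : ZMod p → ℕ) (hT : Cls m p T) (hp : 5 ≤ p) (B : ℕ) (hBp : B + 2 ≤ p)
    (D : Finset ℕ) (hadd : ∀ i ∈ D, ∀ j ∈ D, i + j ≤ B → i + j ∈ D)
    (hB : ∀ k, 1 ≤ k → k ≤ B → Even k → k ∉ D → ¬ (p : ℤ) ∣ br m k) :
    ∀ k, 1 ≤ k → k ≤ B → k ∉ D → ps T k = 0 := by
  refine cl (m := m) (ps T) D ?_ (fun k hk => pw T hT (by omega) k (by omega)) (fun k hk => pr_odd T hT hp k hk) hadd hB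
  rw [← hT.sum, ps]
  push_cast
  refine sum_congr rfl fun c _ => ?_
  rw [pow_zero, mul_one]

private theorem pr_card {m p : ℕ} [NeZero p] (T : ZMod p → ℕ) (hT : Cls m p T) :
    (univ.filter fun c : ZMod p => c ≠ 0 ∧ T c ≠ 0).card ≤ 2 * m := by
  have h1 : (univ.filter fun c : ZMod p => c ≠ 0 ∧ T c ≠ 0).card ≤
      ∑ c ∈ univ.filter (fun c : ZMod p => c ≠ 0 ∧ T c ≠ 0), T c := by
    rw [card_eq_sum_ones]
    refine sum_le_sum fun c hc => ?_
    have := (mem_filter.1 hc).2.2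
    omega
  have h2 : ∑ c ∈ univ.filter (fun c : ZMod p => c ≠ 0 ∧ T c ≠ 0), T c ≤ ∑ c ∈ univ.erase (0 : ZMod p), T c := by
    refine sum_le_sum_of_subset fun c hc => ?_
    exact mem_erase.2 ⟨(mem_filter.1 hc).2.1, mem_univ _⟩
  have h3 := add_sum_erase univ T (mem_univ (0 : ZMod p))
  rw [hT.sum] at h3
  have h4 := hT.pos0
  omega

private theorem pr_end {m p : ℕ} [Fact p.Prime] (T : ZMod p → ℕ) (hT : Cls m p T) (hp : 5 ≤ p)
    (hmp : 2 * m + 1 < p) (h : ∀ c : ZMod p, c ≠ 0 → (T c : ZMod p) = 0) : False := by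
  have h0 : ∀ c : ZMod p, c ≠ 0 → T c = 0 := by
    intro c hc
    have h1 := (ZMod.natCast_eq_zero_iff (T c) p).1 (h c hc)
    have h2 : T c ≤ 2 * m + 1 := by
      rw [← hT.sum]
      exact single_le_sum (f := T) (fun _ _ => Nat.zero_le _) (mem_univ c)
    exact Nat.eq_zero_of_dvd_of_lt h1 (by omega)
  have hpp : p.Prime := Fact.out
  have h6 : Nat.Coprime 6 p := by
    rw [Nat.coprime_comm, Nat.Prime.coprime_iff_not_dvd hpp]
    intro hd
    have h7 : p ∣ 2 * 3 := hd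
    rcases hpp.dvd_mul.1 h7 with h8 | h8
    · have := Nat.le_of_dvd (by norm_num) h8
      omega
    · have := Nat.le_of_dvd (by norm_num) h8
      omega
  have hc := cst T hT (by omega) h6 0 h0
  have hm0 : (0 : ℤ) ≤ m := Int.natCast_nonneg m
  rcases mul_eq_zero.1 hc with h1 | h1
  · push_cast at h1
    linarith
  · push_cast at h1
    nlinarith

theorem crit1 {m p : ℕ} [Fact p.Prime] (T : ZMod p → ℕ) (hT : Cls m p T) (hm : 1 ≤ m) (hp : 5 ≤ p)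
    (hmp : 2 * m + 1 < p) (hB : ∀ k, 1 ≤ k → k ≤ 2 * m → Even k → ¬ (p : ℤ) ∣ br m k) : False := by
  have hz := pz T hT hp (2 * m) (by omega) ∅ (fun i hi => absurd hi (notMem_empty i))
    (fun k h1 h2 h3 _ => hB k h1 h2 h3)
  exact pr_end T hT hp hmp (nw T (fun k h1 h2 => hz k h1 h2 (notMem_empty k)) (pr_card T hT))

theorem crit {m p : ℕ} [Fact p.Prime] (T : ZMod p → ℕ) (hT : Cls m p T) (hm : 1 ≤ m) (hp : 5 ≤ p)
    (hmp : 2 * m + 1 < p) (D : Finset ℕ) (s d : ℕ) (hs : Nat.Coprime s (p - 1)) (hd : ∀ k ∈ D, k * s % (p - 1) ≤ d)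
    (hcnt : d + 2 * m + 1 < p)
    (hadd : ∀ i ∈ D, ∀ j ∈ D, i + j ≤ p - 2 → i + j ∈ D)
    (hB : ∀ k, 1 ≤ k → k ≤ p - 2 → Even k → k ∉ D → ¬ (p : ℤ) ∣ br m k) : False := by
  have hz := pz T hT hp (p - 2) (by omega) D hadd hB
  have h1 := pr_card T hT
  exact pr_end T hT hp hmp (iv (by omega) T D s d hs hd hz (by omega))

end TightIndep.SX
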