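import Pool.Agent.Lib.MP_f31b39_co.SX.Ex
import Pool.Agent.Lib.MP_f31b39_co.SX.Pr
import Pool.Agent.Lib.MP_f31b39_co.NO.Bd6

/-!
# SX-TaA: primes without resonance up to `2 m`
-/

namespace TightIndep.SX

open Finset

private def TaA_chk (m p : ℕ) : Bool :=
  (List.range m).all fun j =>
    (3 * (2 * m + 1) ^ 2 + 3 * (2 * m + 1) * (1 + 2 ^ (2 * (j + 1))) + 2 * 3 ^ (2 * (j + 1))) % p != 6 * m % p

private theorem TaA_br {m p : ℕ} (hc : TaA_chk m p = true) (k : ℕ) (h1 : 1 ≤ k) (h2 : k ≤ 2 * m) (h3 : Even k) :
    ¬ (p : ℤ) ∣ br m k := by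
  obtain ⟨r, rfl⟩ := h3
  unfold TaA_chk at hc
  rw [List.all_eq_true] at hc
  have h4 := hc (r - 1) (List.mem_range.2 (by omega))
  rw [show 2 * (r - 1 + 1) = r + r by omega, bne_iff_ne] at h4
  intro hd
  apply h4
  unfold br at hd
  have h6 : ((3 * (2 * m + 1) ^ 2 + 3 * (2 * m + 1) * (1 + 2 ^ (r + r)) + 2 * 3 ^ (r + r) : ℕ) : ℤ) % p = ((6 * m : ℕ) : ℤ) % p := by
    apply Int.ModEq.symm
    rw [Int.modEq_iff_dvd]
    push_cast
    convert hd using 1
  exact_mod_cast h6

private theorem TaA_one {n m p : ℕ} [NeZero n] (a : Fin m → ZMod n) (h : ∀ v ∈ rel a, v ≠ 0 → 7 ≤ nrm v)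
    (hG : Fintype.card (ZMod n) = bound m 6) (hp : p.Prime) (hpn : p ∣ (2 * m + 1) * (2 * m ^ 2 + 2 * m + 3))
    (hm : 1 ≤ m) (hmp : 2 * m + 1 < p) (hp5 : 5 ≤ p) (hc : TaA_chk m p = true) : False := by
  have : Fact p.Prime := ⟨hp⟩
  have h1 := NO.bound6 m
  rw [← hG, ZMod.card] at h1
  have h2 : p ∣ 3 * n := h1 ▸ hpn
  have h3 : p ∣ n := by
    rcases (Nat.Prime.dvd_mul hp).1 h2 with h4 | h4
    · exact absurd (Nat.le_of_dvd (by norm_num) h4) (by omega)
    · exact h4
  exact crit1 _ (cls h3 a h hG) hm hp5 hmp fun k hk1 hk2 hk3 => TaA_br hc k hk1 hk2 hk3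

theorem taA {n m : ℕ} [NeZero n] (a : Fin m → ZMod n) (h : ∀ v ∈ rel a, v ≠ 0 → 7 ≤ nrm v)
    (hG : Fintype.card (ZMod n) = bound m 6)
    (hm : m ∈ ({4, 6, 7, 9, 10, 11, 16, 17, 19, 20, 24, 25, 27, 28, 29, 34, 36, 37, 43, 44, 45, 46, 52, 55, 56, 59,
      60, 62, 63} : Finset ℕ)) : False := by
  simp only [Finset.mem_insert, Finset.mem_singleton] at hm
  rcases hm with rfl | rfl | rfl | rfl | rfl | rfl | rfl | rfl | rfl | rfl | rfl | rfl | rfl | rfl | rfl | rfl | rfl | rfl | rfl | rfl | rfl | rfl | rfl | rfl | rfl | rfl | rfl | rfl | rfl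
  · exact TaA_one (p := 43) a h hG (by norm_num) (by decide) (by norm_num) (by norm_num) (by norm_num) (by decide +kernel)
  · exact TaA_one (p := 29) a h hG (by norm_num) (by decide) (by norm_num) (by norm_num) (by norm_num) (by decide +kernel)
  · exact TaA_one (p := 23) a h hG (by norm_num) (by decide) (by norm_num) (by norm_num) (by norm_num) (by decide +kernel)
  · exact TaA_one (p := 61) a h hG (by norm_num) (by decide) (by norm_num) (by norm_num) (by norm_num) (by decide +kernel)
  · exact TaA_one (p := 223) a h hG (by norm_num) (by decide) (by norm_num) (by norm_num) (by norm_num) (by decide +kernel)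
  · exact TaA_one (p := 89) a h hG (by norm_num) (by decide) (by norm_num) (by norm_num) (by norm_num) (by decide +kernel)
  · exact TaA_one (p := 547) a h hG (by norm_num) (by decide) (by norm_num) (by norm_num) (by norm_num) (by decide +kernel)
  · exact TaA_one (p := 41) a h hG (by norm_num) (by decide) (by norm_num) (by norm_num) (by norm_num) (by decide +kernel)
  · exact TaA_one (p := 109) a h hG (by norm_num) (by decide) (by norm_num) (by norm_num) (by norm_num) (by decide +kernel)
  · exact TaA_one (p := 281) a h hG (by norm_num) (by decide) (by norm_num) (by norm_num) (by norm_num) (by decide +kernel)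
  · exact TaA_one (p := 401) a h hG (by norm_num) (by decide) (by norm_num) (by norm_num) (by norm_num) (by decide +kernel)
  · exact TaA_one (p := 1303) a h hG (by norm_num) (by decide) (by norm_num) (by norm_num) (by norm_num) (by decide +kernel)
  · exact TaA_one (p := 101) a h hG (by norm_num) (by decide) (by norm_num) (by norm_num) (by norm_num) (by decide +kernel)
  · exact TaA_one (p := 1627) a h hG (by norm_num) (by decide) (by norm_num) (by norm_num) (by norm_num) (by decide +kernel)
  · exact TaA_one (p := 83) a h hG (by norm_num) (by decide) (by norm_num) (by norm_num) (by norm_num) (by decide +kernel)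
  · exact TaA_one (p := 2383) a h hG (by norm_num) (by decide) (by norm_num) (by norm_num) (by norm_num) (by decide +kernel)
  · exact TaA_one (p := 127) a h hG (by norm_num) (by decide) (by norm_num) (by norm_num) (by norm_num) (by decide +kernel)
  · exact TaA_one (p := 563) a h hG (by norm_num) (by decide) (by norm_num) (by norm_num) (by norm_num) (by decide +kernel)
  · exact TaA_one (p := 541) a h hG (by norm_num) (by decide) (by norm_num) (by norm_num) (by norm_num) (by decide +kernel)
  · exact TaA_one (p := 1321) a h hG (by norm_num) (by decide) (by norm_num) (by norm_num) (by norm_num) (by decide +kernel)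
  · exact TaA_one (p := 1381) a h hG (by norm_num) (by decide) (by norm_num) (by norm_num) (by norm_num) (by decide +kernel)
  · exact TaA_one (p := 4327) a h hG (by norm_num) (by decide) (by norm_num) (by norm_num) (by norm_num) (by decide +kernel)
  · exact TaA_one (p := 1103) a h hG (by norm_num) (by decide) (by norm_num) (by norm_num) (by norm_num) (by decide +kernel)
  · exact TaA_one (p := 6163) a h hG (by norm_num) (by decide) (by norm_num) (by norm_num) (by norm_num) (by decide +kernel)
  · exact TaA_one (p := 2129) a h hG (by norm_num) (by decide) (by norm_num) (by norm_num) (by norm_num) (by decide +kernel)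
  · exact TaA_one (p := 787) a h hG (by norm_num) (by decide) (by norm_num) (by norm_num) (by norm_num) (by decide +kernel)
  · exact TaA_one (p := 2441) a h hG (by norm_num) (by decide) (by norm_num) (by norm_num) (by norm_num) (by decide +kernel)
  · exact TaA_one (p := 521) a h hG (by norm_num) (by decide) (by norm_num) (by norm_num) (by norm_num) (by decide +kernel)
  · exact TaA_one (p := 2689) a h hG (by norm_num) (by decide) (by norm_num) (by norm_num) (by norm_num) (by decide +kernel)

end TightIndep.SX
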