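import Pool.Agent.Lib.MP_f31b39_co.SX.Ex
import Pool.Agent.Lib.MP_f31b39_co.SX.Pr
import Pool.Agent.Lib.MP_f31b39_co.NO.Bd6

/-!
# SX-TaC: primes with resonance
-/

namespace TightIndep.SX

open Finset

private theorem taC_one {n m : ℕ} [NeZero n] (a : Fin m → ZMod n) (h : ∀ v ∈ rel a, v ≠ 0 → 7 ≤ nrm v)
    (hG : Fintype.card (ZMod n) = bound m 6) (p s d : ℕ) (D : Finset ℕ) (hp : p.Prime) (hp5 : 5 ≤ p)
    (hpn : p ∣ (2 * m + 1) * (2 * m ^ 2 + 2 * m + 3)) (hm : 1 ≤ m) (hmp : 2 * m + 1 < p)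
    (hs : Nat.Coprime s (p - 1)) (hd : ∀ k ∈ D, k * s % (p - 1) ≤ d) (hcnt : d + 2 * m + 1 < p)
    (hadd : ∀ i ∈ D, ∀ j ∈ D, i + j ≤ p - 2 → i + j ∈ D)
    (hB : ∀ k ∈ Finset.range (p - 1), 1 ≤ k → k % 2 = 0 → k ∉ D →
      (3 * (2 * m + 1) ^ 2 + 3 * (2 * m + 1) * (1 + 2 ^ k) + 2 * 3 ^ k) % p ≠ 6 * m % p) : False := by
  have : Fact p.Prime := ⟨hp⟩
  have h3 : 3 * n = (2 * m + 1) * (2 * m ^ 2 + 2 * m + 3) := by
    rw [← NO.bound6, ← hG, ZMod.card]
  have hn : p ∣ n := by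
    have h1 : p ∣ 3 * n := by rw [h3]; exact hpn
    refine Nat.Coprime.dvd_of_dvd_mul_left ?_ h1
    rw [Nat.coprime_primes hp Nat.prime_three]
    omega
  refine crit _ (cls hn a h hG) hm hp5 hmp D s d hs hd hcnt hadd fun k hk1 hk2 hk3 hk4 hk5 => ?_
  have h4 := hB k (Finset.mem_range.2 (by omega)) hk1 (Nat.even_iff.1 hk3) hk4
  apply h4
  have h5 : (6 * m) ≡ (3 * (2 * m + 1) ^ 2 + 3 * (2 * m + 1) * (1 + 2 ^ k) + 2 * 3 ^ k) [MOD p] := by
    rw [Nat.modEq_iff_dvd]
    unfold br at hk5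
    push_cast
    exact hk5
  exact h5.symm

theorem taC {n m : ℕ} [NeZero n] (a : Fin m → ZMod n) (h : ∀ v ∈ rel a, v ≠ 0 → 7 ≤ nrm v)
    (hG : Fintype.card (ZMod n) = bound m 6)
    (hm : m ∈ ({18, 26, 33, 42} : Finset ℕ)) : False := by
  simp only [Finset.mem_insert, Finset.mem_singleton] at hm
  rcases hm with rfl | rfl | rfl | rfl
  · exact taC_one a h hG 229 29 108 {24, 48, 72, 96, 120, 144, 168, 192, 216} (by norm_num) (by norm_num) (by norm_num)
      (by norm_num) (by norm_num) (by decide +kernel) (by decide +kernel) (by norm_num) (by decide +kernel)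
      (by decide +kernel)
  · exact taC_one a h hG 67 31 12 {30, 60} (by norm_num) (by norm_num) (by norm_num)
      (by norm_num) (by norm_num) (by decide +kernel) (by decide +kernel) (by norm_num) (by decide +kernel)
      (by decide +kernel)
  · exact taC_one a h hG 107 65 2 {62} (by norm_num) (by norm_num) (by norm_num)
      (by norm_num) (by norm_num) (by decide +kernel) (by decide +kernel) (by norm_num) (by decide +kernel)
      (by decide +kernel)
  · exact taC_one a h hG 241 49 132 {54, 108, 162, 174, 216, 228} (by norm_num) (by norm_num) (by norm_num)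
      (by norm_num) (by norm_num) (by decide +kernel) (by decide +kernel) (by norm_num) (by decide +kernel)
      (by decide +kernel)

end TightIndep.SX
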