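import Pool.Agent.Lib.MP_f31b39_co.SX.Th
import Pool.Agent.Lib.MP_f31b39_co.SX.TaA
import Pool.Agent.Lib.MP_f31b39_co.SX.TaC
import Pool.Agent.Lib.MP_f31b39_co.SX.E9
import Pool.Agent.Lib.MP_f31b39_co.SX.E23
import Pool.Agent.Lib.MP_f31b39_co.SX.E49
import Pool.Agent.Lib.MP_f31b39_co.SX.N35
import Pool.Agent.Lib.MP_f31b39_co.SX.N53
import Pool.Agent.Lib.MP_f31b39_co.NO.All

/-!
# SX-All: no tight 6-independent sets with three or more elements in cyclic groups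
-/

namespace TightIndep.SX

open Finset

private theorem e_n {n m : ℕ} [NeZero n] (hG : Fintype.card (ZMod n) = bound m 6) :
    3 * n = (2 * m + 1) * (2 * m ^ 2 + 2 * m + 3) := by
  rw [← NO.bound6, ← hG, ZMod.card]

theorem fam6 {n m : ℕ} [NeZero n] (a : Fin m → ZMod n) (h : ∀ v ∈ rel a, v ≠ 0 → 7 ≤ nrm v)
    (hG : Fintype.card (ZMod n) = bound m 6) : m ≤ 2 := by
  by_contra hcon
  push Not at hcon
  have h64 := NO.fin6 a h hG
  have hn := e_n hG
  have key : m ∈ ({5, 12, 13, 14, 21, 22, 23, 30, 31, 32, 39, 40, 41, 48, 49, 50, 57, 58} : Finset ℕ) ∨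
      m ∈ ({4, 6, 7, 9, 10, 11, 16, 17, 19, 20, 24, 25, 27, 28, 29, 34, 36, 37, 43, 44, 45, 46, 52, 55, 56, 59,
        60, 62, 63} : Finset ℕ) ∨
      m ∈ ({18, 26, 33, 42} : Finset ℕ) ∨
      m = 3 ∨ m = 38 ∨ m = 8 ∨ m = 35 ∨ m = 51 ∨ m = 53 ∨ (m = 15 ∨ m = 47 ∨ m = 54 ∨ m = 61 ∨ m = 64) := by
    clear hn h hG a
    interval_cases m <;> decide
  rcases key with hm | hm | hm | rfl | rfl | rfl | rfl | rfl | rfl | hm
  · exact th a h hG hm
  · exact taA a h hG hm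
  · exact taC a h hG hm
  · exact e9 _ (cls (d := 9) (by omega) a h hG)
  · exact e23 _ (cls (d := 23) (by omega) a h hG)
  · exact e49 _ (cls (d := 49) (by omega) a h hG)
  · obtain rfl : n = 59711 := by omega
    exact n35 a h hG
  · obtain rfl : n = 182207 := by omega
    exact n51 a h hG
  · obtain rfl : n = 204263 := by omega
    exact n53 a h hG
  · refine e7 hm _ (cls (d := 7) ?_ a h hG)
    rcases hm with rfl | rfl | rfl | rfl | rfl <;> omega

/-- `t = 6` -/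
theorem six {n : ℕ} [NeZero n] (A : Finset (ZMod n)) (hA : Tight 6 A) : A.card ≤ 2 := by
  obtain ⟨hI, hG⟩ := hA
  obtain ⟨a, ha⟩ := fam_rel 6 A hI
  exact fam6 a ha hG

end TightIndep.SX
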