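import Pool.Agent.Lib.MP_f31b39_co.NO.Defs

/-!
# Board SX (tight 6-independent sets in cyclic groups, at most 64 elements): definitions
-/

namespace TightIndep.SX

open Finset

/-- The properties of the numbers `T c` of the elements `0`, `± a i` in the classes `c` modulo `d`, for a tight
`6`-independent family `a` of `m` elements. -/
structure Cls (m d : ℕ) [NeZero d] (T : ZMod d → ℕ) : Prop where
  pos0 : 1 ≤ T 0
  symm : ∀ c, T (-c) = T c
  sum : ∑ c, T c = 2 * m + 1
  eqn : ∀ e : ℕ, e ∣ d → 1 < e → ∀ (R : Type) [CommRing R] (z : R),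
    Polynomial.aeval z (Polynomial.cyclotomic e ℤ) = 0 →
      (∑ c, (T c : R) * z ^ c.val) ^ 3 +
        3 * (∑ c, (T c : R) * z ^ c.val) * (∑ c, (T c : R) * (z ^ 2) ^ c.val) +
        2 * ∑ c, (T c : R) * (z ^ 3) ^ c.val = 6 * (m : R) * ∑ c, (T c : R) * z ^ c.val

/-- the power sum -/
def ps {p : ℕ} [NeZero p] (T : ZMod p → ℕ) (k : ℕ) : ZMod p := ∑ c, (T c : ZMod p) * c ^ k

/-- binomial convolution -/
def bc {R : Type} [CommRing R] (u v : ℕ → R) (k : ℕ) : R :=
  ∑ l ∈ range (k + 1), (k.choose l : R) * u l * v (k - l)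

/-- the resonance factor -/
def br (m k : ℕ) : ℤ :=
  3 * (2 * m + 1) ^ 2 + 3 * (2 * m + 1) * (1 + 2 ^ k) + 2 * 3 ^ k - 6 * m

end TightIndep.SX
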