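import Pool.Agent.Lib.MP_f31b39_co.SX.Defs

/-!
# SX-E7: enumeration modulo 7
-/

namespace TightIndep.SX

open Finset

private theorem e7_sum {M : Type} [AddCommMonoid M] (g : ZMod 7 → M) :
    ∑ c, g c = g 0 + g 1 + g 2 + g 3 + g 4 + g 5 + g 6 := Fin.sum_univ_seven g

private theorem e7_aev (R : Type) [CommRing R] (z : R)
    (h : 1 + z + z ^ 2 + z ^ 3 + z ^ 4 + z ^ 5 + z ^ 6 = 0) :
    Polynomial.aeval z (Polynomial.cyclotomic 7 ℤ) = 0 := by
  have : Fact (Nat.Prime 7) := ⟨by norm_num⟩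
  rw [Polynomial.cyclotomic_prime, map_sum]
  simp only [map_pow, Polynomial.aeval_X]
  rw [← h]
  simp only [Finset.sum_range_succ, Finset.sum_range_zero, pow_zero, pow_one, zero_add]

private theorem e7_f (T : ZMod 7 → ℕ) (hs : ∀ c, T (-c) = T c) (R : Type) [CommRing R] (z : R) :
    ∑ c, (T c : R) * z ^ c.val = T 0 + T 1 * (z + z ^ 6) + T 2 * (z ^ 2 + z ^ 5) +
      T 3 * (z ^ 3 + z ^ 4) := by
  rw [e7_sum]
  have h4 : T 4 = T 3 := hs 3
  have h5 : T 5 = T 2 := hs 2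
  have h6 : T 6 = T 1 := hs 1
  rw [h4, h5, h6]
  have v0 : (0 : ZMod 7).val = 0 := rfl
  have v1 : (1 : ZMod 7).val = 1 := rfl
  have v2 : (2 : ZMod 7).val = 2 := rfl
  have v3 : (3 : ZMod 7).val = 3 := rfl
  have v4 : (4 : ZMod 7).val = 4 := rfl
  have v5 : (5 : ZMod 7).val = 5 := rfl
  have v6 : (6 : ZMod 7).val = 6 := rfl
  rw [v0, v1, v2, v3, v4, v5, v6]
  ring

private theorem e7_T {m : ℕ} (T : ZMod 7 → ℕ) (hT : Cls m 7 T) :
    T 0 = 2 * m + 1 - 2 * (T 1 + T 2 + T 3) ∧ T 1 + T 2 + T 3 ≤ m := by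
  have h4 : T 4 = T 3 := hT.symm 3
  have h5 : T 5 = T 2 := hT.symm 2
  have h6 : T 6 = T 1 := hT.symm 1
  have h := hT.sum
  rw [e7_sum] at h
  have h0 := hT.pos0
  omega

/-- one of the equations, modulo `n`, `k = 6 m` -/
private def e7_q (n k x y w : ℕ) : Bool :=
  Nat.beq (Nat.mod (Nat.add (Nat.mul x (Nat.add (Nat.mul x x) (Nat.mul 3 y))) (Nat.mul 2 w)) n)
    (Nat.mod (Nat.mul k x) n)

private def e7_l (t u v w a b c : ℕ) : ℕ := t + a * u + b * v + c * w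

/-- the three equations modulo `n` -/
private def e7_o (n k x y w : ℕ) : Bool := and (e7_q n k x y w) (and (e7_q n k y w x) (e7_q n k w x y))

private theorem e7_main (n : ℕ) (u v w : ℕ) (z : ZMod n)
    (h0 : 1 + z + z ^ 2 + z ^ 3 + z ^ 4 + z ^ 5 + z ^ 6 = 0) (h7 : z ^ 7 = 1)
    (hu : z + z ^ 6 = u) (hv : z ^ 2 + z ^ 5 = v) (hw : z ^ 3 + z ^ 4 = w) {m : ℕ} (T : ZMod 7 → ℕ)
    (hT : Cls m 7 T) : e7_q n (6 * m) (e7_l (T 0) u v w (T 1) (T 2) (T 3)) (e7_l (T 0) v w u (T 1) (T 2) (T 3))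
      (e7_l (T 0) w u v (T 1) (T 2) (T 3)) = true := by
  have h := hT.eqn 7 dvd_rfl (by norm_num) (ZMod n) z (e7_aev _ z h0)
  rw [e7_f T hT.symm _ z, e7_f T hT.symm _ (z ^ 2), e7_f T hT.symm _ (z ^ 3)] at h
  have e1 : (T 0 : ZMod n) + T 1 * (z + z ^ 6) + T 2 * (z ^ 2 + z ^ 5) + T 3 * (z ^ 3 + z ^ 4) =
      ((e7_l (T 0) u v w (T 1) (T 2) (T 3) : ℕ) : ZMod n) := by
    unfold e7_l
    push_cast
    rw [hu, hv, hw]
  have a12 : (z ^ 2) ^ 6 = z ^ 5 := by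
    calc (z ^ 2) ^ 6 = z ^ 7 * z ^ 5 := by ring
      _ = z ^ 5 := by rw [h7, one_mul]
  have a10 : (z ^ 2) ^ 5 = z ^ 3 := by
    calc (z ^ 2) ^ 5 = z ^ 7 * z ^ 3 := by ring
      _ = z ^ 3 := by rw [h7, one_mul]
  have a8 : (z ^ 2) ^ 4 = z := by
    calc (z ^ 2) ^ 4 = z ^ 7 * z := by ring
      _ = z := by rw [h7, one_mul]
  have a6 : (z ^ 2) ^ 3 = z ^ 6 := by ring
  have a4 : (z ^ 2) ^ 2 = z ^ 4 := by ring
  have b18 : (z ^ 3) ^ 6 = z ^ 4 := by
    calc (z ^ 3) ^ 6 = z ^ 7 * z ^ 7 * z ^ 4 := by ring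
      _ = z ^ 4 := by rw [h7, one_mul, one_mul]
  have b15 : (z ^ 3) ^ 5 = z := by
    calc (z ^ 3) ^ 5 = z ^ 7 * z ^ 7 * z := by ring
      _ = z := by rw [h7, one_mul, one_mul]
  have b12 : (z ^ 3) ^ 4 = z ^ 5 := by
    calc (z ^ 3) ^ 4 = z ^ 7 * z ^ 5 := by ring
      _ = z ^ 5 := by rw [h7, one_mul]
  have b9 : (z ^ 3) ^ 3 = z ^ 2 := by
    calc (z ^ 3) ^ 3 = z ^ 7 * z ^ 2 := by ring
      _ = z ^ 2 := by rw [h7, one_mul]
  have b6 : (z ^ 3) ^ 2 = z ^ 6 := by ring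
  have e2 : (T 0 : ZMod n) + T 1 * (z ^ 2 + (z ^ 2) ^ 6) + T 2 * ((z ^ 2) ^ 2 + (z ^ 2) ^ 5) +
      T 3 * ((z ^ 2) ^ 3 + (z ^ 2) ^ 4) = ((e7_l (T 0) v w u (T 1) (T 2) (T 3) : ℕ) : ZMod n) := by
    unfold e7_l
    push_cast
    rw [a12, a10, a8, a6, a4, ← hu, ← hv, ← hw]
    ring
  have e3 : (T 0 : ZMod n) + T 1 * (z ^ 3 + (z ^ 3) ^ 6) + T 2 * ((z ^ 3) ^ 2 + (z ^ 3) ^ 5) +
      T 3 * ((z ^ 3) ^ 3 + (z ^ 3) ^ 4) = ((e7_l (T 0) w u v (T 1) (T 2) (T 3) : ℕ) : ZMod n) := by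
    unfold e7_l
    push_cast
    rw [b18, b15, b12, b9, b6, ← hu, ← hv, ← hw]
    ring
  rw [e1, e2, e3] at h
  generalize e7_l (T 0) u v w (T 1) (T 2) (T 3) = x at h ⊢
  generalize e7_l (T 0) v w u (T 1) (T 2) (T 3) = y at h ⊢
  generalize e7_l (T 0) w u v (T 1) (T 2) (T 3) = r at h ⊢
  have h8 : (x * (x * x + 3 * y) + 2 * r) % n = (6 * m * x) % n := by
    refine (ZMod.natCast_eq_natCast_iff' _ _ n).1 ?_
    push_cast
    rw [← h]
    ring
  exact Nat.beq_eq.mpr h8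

private theorem e7_all (n : ℕ) (u v w : ℕ) (z : ZMod n)
    (h0 : 1 + z + z ^ 2 + z ^ 3 + z ^ 4 + z ^ 5 + z ^ 6 = 0) (h7 : z ^ 7 = 1)
    (hu : z + z ^ 6 = u) (hv : z ^ 2 + z ^ 5 = v) (hw : z ^ 3 + z ^ 4 = w) {m : ℕ} (T : ZMod 7 → ℕ)
    (hT : Cls m 7 T) :
    e7_q n (6 * m) (e7_l (T 0) u v w (T 1) (T 2) (T 3)) (e7_l (T 0) v w u (T 1) (T 2) (T 3))
      (e7_l (T 0) w u v (T 1) (T 2) (T 3)) = true ∧
    e7_q n (6 * m) (e7_l (T 0) v w u (T 1) (T 2) (T 3)) (e7_l (T 0) w u v (T 1) (T 2) (T 3))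
      (e7_l (T 0) u v w (T 1) (T 2) (T 3)) = true ∧
    e7_q n (6 * m) (e7_l (T 0) w u v (T 1) (T 2) (T 3)) (e7_l (T 0) u v w (T 1) (T 2) (T 3))
      (e7_l (T 0) v w u (T 1) (T 2) (T 3)) = true := by
  have a12 : (z ^ 2) ^ 6 = z ^ 5 := by
    calc (z ^ 2) ^ 6 = z ^ 7 * z ^ 5 := by ring
      _ = z ^ 5 := by rw [h7, one_mul]
  have a10 : (z ^ 2) ^ 5 = z ^ 3 := by
    calc (z ^ 2) ^ 5 = z ^ 7 * z ^ 3 := by ring
      _ = z ^ 3 := by rw [h7, one_mul]
  have a8 : (z ^ 2) ^ 4 = z := by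
    calc (z ^ 2) ^ 4 = z ^ 7 * z := by ring
      _ = z := by rw [h7, one_mul]
  have a6 : (z ^ 2) ^ 3 = z ^ 6 := by ring
  have a4 : (z ^ 2) ^ 2 = z ^ 4 := by ring
  have b18 : (z ^ 3) ^ 6 = z ^ 4 := by
    calc (z ^ 3) ^ 6 = z ^ 7 * z ^ 7 * z ^ 4 := by ring
      _ = z ^ 4 := by rw [h7, one_mul, one_mul]
  have b15 : (z ^ 3) ^ 5 = z := by
    calc (z ^ 3) ^ 5 = z ^ 7 * z ^ 7 * z := by ring
      _ = z := by rw [h7, one_mul, one_mul]
  have b12 : (z ^ 3) ^ 4 = z ^ 5 := by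
    calc (z ^ 3) ^ 4 = z ^ 7 * z ^ 5 := by ring
      _ = z ^ 5 := by rw [h7, one_mul]
  have b9 : (z ^ 3) ^ 3 = z ^ 2 := by
    calc (z ^ 3) ^ 3 = z ^ 7 * z ^ 2 := by ring
      _ = z ^ 2 := by rw [h7, one_mul]
  have b6 : (z ^ 3) ^ 2 = z ^ 6 := by ring
  have c2 : (z ^ 2) ^ 7 = 1 := by rw [← pow_mul, mul_comm, pow_mul, h7, one_pow]
  have c3 : (z ^ 3) ^ 7 = 1 := by rw [← pow_mul, mul_comm, pow_mul, h7, one_pow]
  have d2 : 1 + z ^ 2 + (z ^ 2) ^ 2 + (z ^ 2) ^ 3 + (z ^ 2) ^ 4 + (z ^ 2) ^ 5 + (z ^ 2) ^ 6 = 0 := by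
    rw [a12, a10, a8, a6, a4, ← h0]
    ring
  have d3 : 1 + z ^ 3 + (z ^ 3) ^ 2 + (z ^ 3) ^ 3 + (z ^ 3) ^ 4 + (z ^ 3) ^ 5 + (z ^ 3) ^ 6 = 0 := by
    rw [b18, b15, b12, b9, b6, ← h0]
    ring
  have q1 := e7_main n u v w z h0 h7 hu hv hw T hT
  have q2 := e7_main n v w u (z ^ 2) d2 c2 (by rw [a12, ← hv]) (by rw [a4, a10, ← hw]; ring)
    (by rw [a6, a8, ← hu]; ring) T hT
  have q3 := e7_main n w u v (z ^ 3) d3 c3 (by rw [b18, ← hw]) (by rw [b6, b15, ← hu]; ring)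
    (by rw [b9, b12, ← hv]) T hT
  exact ⟨q1, q2, q3⟩

/-- evaluates the argument first -/
private def e7_v (x : ℕ) (f : ℕ → Bool) : Bool := Nat.rec (f 0) (fun n _ => f (Nat.succ n)) x

private theorem e7_v_eq (x : ℕ) (f : ℕ → Bool) : e7_v x f = f x := by
  cases x <;> rfl

/-- the last loop -/
private def e7_g (n k : ℕ) : ℕ → ℕ → ℕ → ℕ → Bool
  | 0, x, y, w => e7_v x fun x => e7_v y fun y => e7_v w fun w => not (e7_o n k x y w)
  | c + 1, x, y, w => e7_v x fun x => e7_v y fun y => e7_v w fun w =>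
    cond (e7_o n k x y w) false (e7_g n k c (Nat.add x 77) (Nat.add y 22) (Nat.add w 7))

/-- the loop over the second variable -/
private def e7_h (n k s M : ℕ) : ℕ → Bool
  | 0 => e7_g n k M s s s
  | b + 1 => cond (e7_g n k (Nat.sub M (b + 1)) (Nat.add s (Nat.mul 7 (b + 1)))
      (Nat.add s (Nat.mul 77 (b + 1))) (Nat.add s (Nat.mul 22 (b + 1)))) (e7_h n k s M b) false

/-- the loop over the least variable -/
private def e7_i (n k m : ℕ) : ℕ → Bool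
  | 0 => e7_h n k (2 * m + 1) m m
  | a + 1 => cond (e7_v (2 * m + 1 + 106 * (a + 1)) fun s => e7_v (m - 3 * (a + 1)) fun M => e7_h n k s M M)
      (e7_i n k m a) false

private theorem e7_g_eq (n k : ℕ) (C x y w : ℕ) (h : e7_g n k C x y w = true) (c : ℕ) (hc : c ≤ C) :
    e7_o n k (x + 77 * c) (y + 22 * c) (w + 7 * c) = false := by
  induction C generalizing x y w c with
  | zero =>
    unfold e7_g at h
    rw [e7_v_eq, e7_v_eq, e7_v_eq] at h
    obtain rfl : c = 0 := by omega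
    simpa using h
  | succ C ih =>
    unfold e7_g at h
    rw [e7_v_eq, e7_v_eq, e7_v_eq] at h
    rcases hb : e7_o n k x y w with _ | _
    · rw [hb] at h
      rcases Nat.eq_zero_or_pos c with rfl | h0
      · simpa using hb
      · have h1 : e7_g n k C (x + 77) (y + 22) (w + 7) = true := h
        have h2 := ih _ _ _ h1 (c - 1) (by omega)
        have e1 : x + 77 + 77 * (c - 1) = x + 77 * c := by omega
        have e2 : y + 22 + 22 * (c - 1) = y + 22 * c := by omega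
        have e3 : w + 7 + 7 * (c - 1) = w + 7 * c := by omega
        rwa [e1, e2, e3] at h2
    · rw [hb] at h
      exact absurd h (by simp)

private theorem e7_h_eq (n k s M B : ℕ) (h : e7_h n k s M B = true) (b : ℕ) (hb : b ≤ B) :
    e7_g n k (M - b) (s + 7 * b) (s + 77 * b) (s + 22 * b) = true := by
  induction B with
  | zero =>
    obtain rfl : b = 0 := by omega
    exact h
  | succ B ih =>
    unfold e7_h at h
    have h1 : e7_g n k (M - (B + 1)) (s + 7 * (B + 1)) (s + 77 * (B + 1)) (s + 22 * (B + 1)) = true ∧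
        e7_h n k s M B = true := by
      change cond (e7_g n k (M - (B + 1)) (s + 7 * (B + 1)) (s + 77 * (B + 1)) (s + 22 * (B + 1)))
        (e7_h n k s M B) false = true at h
      rcases hg : e7_g n k (M - (B + 1)) (s + 7 * (B + 1)) (s + 77 * (B + 1)) (s + 22 * (B + 1)) with _ | _
      · rw [hg] at h
        exact absurd h (by simp)
      · rw [hg] at h
        exact ⟨rfl, h⟩
    rcases Nat.lt_or_ge B b with h2 | h2
    · obtain rfl : b = B + 1 := by omega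
      exact h1.1
    · exact ih h1.2 h2

private theorem e7_i_eq (n k m A : ℕ) (h : e7_i n k m A = true) (a : ℕ) (ha : a ≤ A) :
    e7_h n k (2 * m + 1 + 106 * a) (m - 3 * a) (m - 3 * a) = true := by
  induction A with
  | zero =>
    obtain rfl : a = 0 := by omega
    exact h
  | succ A ih =>
    unfold e7_i at h
    rw [e7_v_eq, e7_v_eq] at h
    rcases hg : e7_h n k (2 * m + 1 + 106 * (A + 1)) (m - 3 * (A + 1)) (m - 3 * (A + 1)) with _ | _
    · rw [hg] at h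
      exact absurd h (by simp)
    · rw [hg] at h
      rcases Nat.lt_or_ge A a with h2 | h2
      · obtain rfl : a = A + 1 := by omega
        exact hg
      · exact ih h h2

private theorem e7_no {m : ℕ} (h : e7_i 113 (6 * m) m (m / 3) = true) (T : ZMod 7 → ℕ)
    (hT : Cls m 7 T) : False := by
  obtain ⟨q1, q2, q3⟩ := e7_all 113 24 9 79 109 (by decide +kernel) (by decide +kernel)
    (by decide +kernel) (by decide +kernel) (by decide +kernel) T hT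
  obtain ⟨ht, h2⟩ := e7_T T hT
  unfold e7_l at q1 q2 q3
  have key : ∀ a b c x y w : ℕ, a + b + c ≤ m → a ≤ b → a ≤ c → x = 2 * m + 1 + 22 * a + 7 * b + 77 * c →
      y = 2 * m + 1 + 7 * a + 77 * b + 22 * c → w = 2 * m + 1 + 77 * a + 22 * b + 7 * c →
      e7_q 113 (6 * m) x y w = true → e7_q 113 (6 * m) y w x = true → e7_q 113 (6 * m) w x y = true →
      False := by
    intro a b c x y w h1 hab hac hx hy hw r1 r2 r3
    have h3 := e7_i_eq _ _ _ _ h a (by omega)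
    have h4 := e7_h_eq _ _ _ _ _ h3 (b - a) (by omega)
    have h5 := e7_g_eq _ _ _ _ _ _ h4 (c - a) (by omega)
    have e1 : 2 * m + 1 + 106 * a + 7 * (b - a) + 77 * (c - a) = x := by omega
    have e2 : 2 * m + 1 + 106 * a + 77 * (b - a) + 22 * (c - a) = y := by omega
    have e3 : 2 * m + 1 + 106 * a + 22 * (b - a) + 7 * (c - a) = w := by omega
    rw [e1, e2, e3] at h5
    unfold e7_o at h5
    rw [r1, r2, r3] at h5
    exact absurd h5 (by simp)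
  rcases le_total (T 1) (T 2) with h12 | h12
  · rcases le_total (T 1) (T 3) with h13 | h13
    · exact key (T 1) (T 2) (T 3) _ _ _ h2 h12 h13 (by omega) (by omega) (by omega) q1 q2 q3
    · exact key (T 3) (T 1) (T 2) _ _ _ (by omega) h13 (h13.trans h12) (by omega) (by omega) (by omega) q2 q3 q1
  · rcases le_total (T 2) (T 3) with h23 | h23
    · exact key (T 2) (T 3) (T 1) _ _ _ (by omega) h23 h12 (by omega) (by omega) (by omega) q3 q1 q2
    · exact key (T 3) (T 1) (T 2) _ _ _ (by omega) (h23.trans h12) h23 (by omega) (by omega) (by omega) q2 q3 q1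

private theorem e7_c15 : e7_i 113 (6 * 15) 15 (15 / 3) = true := by decide +kernel

private theorem e7_c47 : e7_i 113 (6 * 47) 47 (47 / 3) = true := by decide +kernel

private theorem e7_c54 : e7_i 113 (6 * 54) 54 (54 / 3) = true := by decide +kernel

private theorem e7_c61 : e7_i 113 (6 * 61) 61 (61 / 3) = true := by decide +kernel

private theorem e7_c64 : e7_i 113 (6 * 64) 64 (64 / 3) = true := by decide +kernel

theorem e7 {m : ℕ} (hm : m = 15 ∨ m = 47 ∨ m = 54 ∨ m = 61 ∨ m = 64) (T : ZMod 7 → ℕ) (hT : Cls m 7 T) : False := by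
  rcases hm with rfl | rfl | rfl | rfl | rfl
  · exact e7_no e7_c15 T hT
  · exact e7_no e7_c47 T hT
  · exact e7_no e7_c54 T hT
  · exact e7_no e7_c61 T hT
  · exact e7_no e7_c64 T hT

private def e7_d : Bool :=
  (List.range 9).all fun a => (List.range (9 - a)).all fun b => (List.range (9 - a - b)).all fun c =>
    !(e7_o 29 48 (e7_l (17 - 2 * (a + b + c)) 7 18 3 a b c) (e7_l (17 - 2 * (a + b + c)) 18 3 7 a b c)
      (e7_l (17 - 2 * (a + b + c)) 3 7 18 a b c)) ||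
      ((a == 5 && b == 1 && c == 1) || (a == 1 && b == 5 && c == 1) || (a == 1 && b == 1 && c == 5))

private theorem e7_d8 : e7_d = true := by decide +kernel

theorem e7_8 (T : ZMod 7 → ℕ) (hT : Cls 8 7 T) : T 0 = 3 ∧
    ((T 1 = 5 ∧ T 2 = 1 ∧ T 3 = 1) ∨ (T 1 = 1 ∧ T 2 = 5 ∧ T 3 = 1) ∨ (T 1 = 1 ∧ T 2 = 1 ∧ T 3 = 5)) := by
  obtain ⟨q1, q2, q3⟩ := e7_all 29 7 18 3 16 (by decide +kernel) (by decide +kernel)
    (by decide +kernel) (by decide +kernel) (by decide +kernel) T hT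
  obtain ⟨ht, h2⟩ := e7_T T hT
  have h := e7_d8
  unfold e7_d at h
  rw [List.all_eq_true] at h
  have h3 := h (T 1) (List.mem_range.2 (by omega))
  rw [List.all_eq_true] at h3
  have h4 := h3 (T 2) (List.mem_range.2 (by omega))
  rw [List.all_eq_true] at h4
  have h5 := h4 (T 3) (List.mem_range.2 (by omega))
  have h6 : (17 - 2 * (T 1 + T 2 + T 3)) = T 0 := by omega
  have h7 : (6 * 8 : ℕ) = 48 := rfl
  rw [h7] at q1 q2 q3
  unfold e7_o at h5
  rw [h6, q1, q2, q3] at h5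
  simp only [Bool.and_self, Bool.not_true, Bool.false_or, Bool.or_eq_true, Bool.and_eq_true, beq_iff_eq] at h5
  omega

end TightIndep.SX
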