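import Pool.Agent.Lib.MP_f31b39_co.SX.Defs
import Pool.Agent.Lib.MP_f31b39_co.NO.Six

/-!
# SX-Ex: the class numbers of a tight 6-independent family
-/

namespace TightIndep.SX

open Finset

private theorem Ex_fib {ι κ R : Type} [Fintype ι] [Fintype κ] [DecidableEq κ] [CommSemiring R] (f : ι → κ) (F : κ → R) :
    ∑ c, ((univ.filter fun i => f i = c).card : R) * F c = ∑ i, F (f i) := by
  have h1 : ∀ c, ((univ.filter fun i => f i = c).card : R) * F c = ∑ i, if f i = c then F c else 0 := by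
    intro c
    rw [← sum_filter, sum_const, nsmul_eq_mul]
  simp_rw [h1]
  rw [sum_comm]
  refine sum_congr rfl fun i _ => ?_
  rw [sum_ite_eq, if_pos (mem_univ _)]

private theorem Ex_sum {R : Type} [AddCommMonoid R] {m : ℕ} (F : Option (Fin m × Bool) → R) :
    ∑ i, F i = F none + ∑ i : Fin m, (F (some (i, true)) + F (some (i, false))) := by
  rw [Fintype.sum_option, Fintype.sum_prod_type]
  congr 1
  refine sum_congr rfl fun i _ => ?_
  rw [Fintype.sum_bool]

private def Ex_nu {m : ℕ} : Option (Fin m × Bool) → Option (Fin m × Bool)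
  | none => none
  | some (i, b) => some (i, !b)

private theorem Ex_nu_nu {m : ℕ} (i : Option (Fin m × Bool)) : Ex_nu (Ex_nu i) = i := by
  rcases i with _ | ⟨i, b⟩
  · rfl
  · cases b <;> rfl

private theorem Ex_sg_nu {G : Type} [AddCommGroup G] {m : ℕ} (a : Fin m → G) (i : Option (Fin m × Bool)) :
    NO.sg a (Ex_nu i) = - NO.sg a i := by
  rcases i with _ | ⟨i, b⟩
  · exact neg_zero.symm
  · cases b
    · exact (neg_neg _).symm
    · rfl

theorem cls {n m d : ℕ} [NeZero n] [NeZero d] (hd : d ∣ n) (a : Fin m → ZMod n)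
    (h : ∀ v ∈ rel a, v ≠ 0 → 7 ≤ nrm v) (hG : Fintype.card (ZMod n) = bound m 6) :
    Cls m d fun c => (univ.filter fun i : Option (Fin m × Bool) => ZMod.castHom hd (ZMod d) (NO.sg a i) = c).card := by
  obtain ⟨φ, hφ⟩ : ∃ φ : ZMod n →+* ZMod d, φ = ZMod.castHom hd (ZMod d) := ⟨_, rfl⟩
  rw [← hφ]
  have hfib : ∀ (R : Type) [CommRing R] (F : ZMod d → R),
      ∑ c, (((univ.filter fun i : Option (Fin m × Bool) => φ (NO.sg a i) = c).card : ℕ) : R) * F c =
        F 0 + ∑ i, (F (φ (a i)) + F (- φ (a i))) := by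
    intro R _ F
    rw [Ex_fib (fun i : Option (Fin m × Bool) => φ (NO.sg a i)) F, Ex_sum]
    simp only [NO.sg, map_zero, map_neg]
  refine ⟨?_, ?_, ?_, ?_⟩
  · rw [Nat.one_le_iff_ne_zero, ← Nat.pos_iff_ne_zero, card_pos]
    exact ⟨none, by simp [NO.sg]⟩
  · intro c
    refine card_nbij' Ex_nu Ex_nu ?_ ?_ (fun i _ => Ex_nu_nu i) fun i _ => Ex_nu_nu i
    · intro i hi
      simp only [coe_filter, mem_univ, true_and, Set.mem_ofPred_eq] at hi ⊢
      rw [Ex_sg_nu, map_neg, hi, neg_neg]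
    · intro i hi
      simp only [coe_filter, mem_univ, true_and, Set.mem_ofPred_eq] at hi ⊢
      rw [Ex_sg_nu, map_neg, hi]
  · have h1 := Ex_fib (R := ℕ) (fun i : Option (Fin m × Bool) => φ (NO.sg a i)) (fun _ => 1)
    simp only [mul_one, Nat.cast_id, sum_const, card_univ, Fintype.card_option, Fintype.card_prod, Fintype.card_fin,
      Fintype.card_bool, smul_eq_mul] at h1
    rw [h1]
    ring
  · intro e he he1 R _ z hz
    have he0 : 0 < e := by omega
    have hd1 : 1 < d := lt_of_lt_of_le he1 (Nat.le_of_dvd (Nat.pos_of_ne_zero (NeZero.ne d)) he)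
    have hp1 : Fact (1 < d) := ⟨hd1⟩
    obtain ⟨ζ, hζ⟩ : ∃ ζ : ℂ, IsPrimitiveRoot ζ e := ⟨_, Complex.isPrimitiveRoot_exp e he0.ne'⟩
    have hζd : ζ ^ d = 1 := (hζ.pow_eq_one_iff_dvd d).2 he
    have hζn : ζ ^ n = 1 := (hζ.pow_eq_one_iff_dvd n).2 (he.trans hd)
    obtain ⟨χ, hχ⟩ : ∃ χ : AddChar (ZMod n) ℂ, χ = AddChar.zmodChar n hζn := ⟨_, rfl⟩
    have hchi : ∀ g : ZMod n, χ g = ζ ^ (φ g).val := by
      intro g
      rw [hχ, AddChar.zmodChar_apply, hφ, ZMod.castHom_apply, ZMod.cast_eq_val, ZMod.val_natCast]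
      exact pow_eq_pow_mod _ hζd
    have hinv : ∀ g : ZMod n, (χ g)⁻¹ = ζ ^ (- φ g).val := by
      intro g
      rw [← AddChar.map_neg_eq_inv, hchi, map_neg]
    have hne : χ ≠ 1 := by
      intro h1
      have h2 : χ 1 = 1 := by rw [h1]; rfl
      rw [hchi, map_one, ZMod.val_one, pow_one] at h2
      exact hζ.ne_one he1 h2
    have hE := NO.six_eq a h hG χ hne
    obtain ⟨T, hT⟩ : ∃ T : ZMod d → ℕ, T = fun c => (univ.filter fun i : Option (Fin m × Bool) => φ (NO.sg a i) = c).card :=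
      ⟨_, rfl⟩
    have hTc : ∀ c, (univ.filter fun i : Option (Fin m × Bool) => φ (NO.sg a i) = c).card = T c := fun c => by rw [hT]
    simp_rw [hTc] at hfib ⊢
    have s1 : ∑ c, (T c : ℂ) * ζ ^ c.val = 1 + ∑ i, (χ (a i) + (χ (a i))⁻¹) := by
      rw [hfib ℂ fun c => ζ ^ c.val, ZMod.val_zero, pow_zero]
      congr 1
      refine sum_congr rfl fun i _ => ?_
      rw [hinv, hchi]
    have s2 : ∑ c, (T c : ℂ) * (ζ ^ 2) ^ c.val = 1 + ∑ i, (χ (a i) ^ 2 + (χ (a i))⁻¹ ^ 2) := by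
      rw [hfib ℂ fun c => (ζ ^ 2) ^ c.val, ZMod.val_zero, pow_zero]
      congr 1
      refine sum_congr rfl fun i _ => ?_
      rw [hinv, hchi, pow_right_comm ζ 2, pow_right_comm ζ 2]
    have s3 : ∑ c, (T c : ℂ) * (ζ ^ 3) ^ c.val = 1 + ∑ i, (χ (a i) ^ 3 + (χ (a i))⁻¹ ^ 3) := by
      rw [hfib ℂ fun c => (ζ ^ 3) ^ c.val, ZMod.val_zero, pow_zero]
      congr 1
      refine sum_congr rfl fun i _ => ?_
      rw [hinv, hchi, pow_right_comm ζ 3, pow_right_comm ζ 3]
    let f : Polynomial ℤ := ∑ c : ZMod d, Polynomial.C (T c : ℤ) * Polynomial.X ^ c.val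
    let F : Polynomial ℤ := f ^ 3 + 3 * f * Polynomial.expand ℤ 2 f + 2 * Polynomial.expand ℤ 3 f -
      Polynomial.C (6 * (m : ℤ)) * f
    have hev : ∀ (S : Type) [CommRing S] (x : S), Polynomial.aeval x f = ∑ c, (T c : S) * x ^ c.val := by
      intro S _ x
      simp [f]
    have hevF : ∀ (S : Type) [CommRing S] (x : S), Polynomial.aeval x F =
        (∑ c, (T c : S) * x ^ c.val) ^ 3 + 3 * (∑ c, (T c : S) * x ^ c.val) * (∑ c, (T c : S) * (x ^ 2) ^ c.val) +
          2 * ∑ c, (T c : S) * (x ^ 3) ^ c.val - 6 * (m : S) * ∑ c, (T c : S) * x ^ c.val := by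
      intro S _ x
      rw [← hev, ← hev, ← hev]
      simp only [F, map_sub, map_add, map_mul, map_pow, Polynomial.expand_aeval, Polynomial.aeval_C, map_ofNat]
      simp
    have hF : Polynomial.aeval ζ F = 0 := by
      rw [hevF, s1, s2, s3, hE, sub_self]
    have hdvd : Polynomial.cyclotomic e ℤ ∣ F := by
      rw [Polynomial.cyclotomic_eq_minpoly hζ he0]
      exact minpoly.isIntegrallyClosed_dvd (hζ.isIntegral he0) hF
    obtain ⟨g, hg⟩ := hdvd
    have hz0 : Polynomial.aeval z F = 0 := by rw [hg, map_mul, hz, zero_mul]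
    rw [hevF] at hz0
    exact sub_eq_zero.1 hz0

end TightIndep.SX
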