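import Pool.Agent.Lib.MP_f31b39_co.SX.Defs

/-!
# SX-Pw: the power sums modulo a prime
-/

namespace TightIndep.SX

open Finset

private noncomputable def Lf (p k : ℕ) : Polynomial (ZMod p) →ₗ[ZMod p] ZMod p :=
  Polynomial.lsum fun i => ((i : ZMod p) ^ k) • LinearMap.id

private theorem Lf_monomial (p k i : ℕ) (a : ZMod p) :
    Lf p k (Polynomial.monomial i a) = (i : ZMod p) ^ k * a := by
  unfold Lf
  rw [Polynomial.lsum_apply, Polynomial.sum_monomial_index]
  · simp
  · simp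

private theorem Lf_mul (p k : ℕ) (P Q : Polynomial (ZMod p)) :
    Lf p k (P * Q) = bc (fun l => Lf p l P) (fun l => Lf p l Q) k := by
  unfold bc
  induction P using Polynomial.induction_on' with
  | add P₁ P₂ h₁ h₂ =>
    rw [add_mul, map_add, h₁, h₂, ← Finset.sum_add_distrib]
    refine Finset.sum_congr rfl fun l _ => ?_
    beta_reduce
    rw [map_add]
    ring
  | monomial i a =>
    induction Q using Polynomial.induction_on' with
    | add Q₁ Q₂ h₁ h₂ =>
      rw [mul_add, map_add, h₁, h₂, ← Finset.sum_add_distrib]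
      refine Finset.sum_congr rfl fun l _ => ?_
      beta_reduce
      rw [map_add]
      ring
    | monomial j b =>
      rw [Polynomial.monomial_mul_monomial, Lf_monomial, Nat.cast_add, add_pow, Finset.sum_mul]
      refine Finset.sum_congr rfl fun l _ => ?_
      beta_reduce
      rw [Lf_monomial, Lf_monomial]
      ring

private theorem Lf_cyc {p : ℕ} [Fact p.Prime] {l : ℕ} (hl : l + 2 ≤ p) :
    Lf p l (Polynomial.cyclotomic p (ZMod p)) = 0 := by
  rw [Polynomial.cyclotomic_prime, map_sum]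
  have h1 : ∑ i ∈ range p, Lf p l (Polynomial.X ^ i) = ∑ i ∈ range p, ((i : ℕ) : ZMod p) ^ l := by
    refine Finset.sum_congr rfl fun i _ => ?_
    rw [← Polynomial.monomial_one_right_eq_X_pow, Lf_monomial, mul_one]
  have h2 : ∑ i ∈ range p, ((i : ℕ) : ZMod p) ^ l = ∑ x : ZMod p, x ^ l := by
    refine Finset.sum_bij' (fun i _ => ((i : ℕ) : ZMod p)) (fun x _ => x.val) ?_ ?_ ?_ ?_ ?_
    · intro i _
      exact mem_univ _
    · intro x _
      exact mem_range.2 (ZMod.val_lt x)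
    · intro i hi
      exact ZMod.val_cast_of_lt (mem_range.1 hi)
    · intro x _
      exact ZMod.natCast_zmod_val x
    · intro i _
      rfl
  rw [h1, h2]
  refine FiniteField.sum_pow_lt_card_sub_one (ZMod p) l ?_
  rw [ZMod.card]
  omega

private theorem Lf_cyc_mul {p : ℕ} [Fact p.Prime] {k : ℕ} (hk : k + 2 ≤ p) (G : Polynomial (ZMod p)) :
    Lf p k (Polynomial.cyclotomic p (ZMod p) * G) = 0 := by
  rw [Lf_mul]
  unfold bc
  refine Finset.sum_eq_zero fun l hl => ?_
  have hl' := mem_range.1 hl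
  beta_reduce
  rw [Lf_cyc (by omega), mul_zero, zero_mul]

private noncomputable def ff (p : ℕ) [NeZero p] (T : ZMod p → ℕ) (j : ℕ) : Polynomial (ZMod p) :=
  ∑ c, Polynomial.C ((T c : ℕ) : ZMod p) * Polynomial.X ^ (j * c.val)

private theorem Lf_ff {p : ℕ} [Fact p.Prime] (T : ZMod p → ℕ) (j k : ℕ) :
    Lf p k (ff p T j) = (j : ZMod p) ^ k * ps T k := by
  unfold ff ps
  rw [map_sum, Finset.mul_sum]
  refine Finset.sum_congr rfl fun c _ => ?_
  rw [Polynomial.C_mul_X_pow_eq_monomial, Lf_monomial, Nat.cast_mul, ZMod.natCast_zmod_val, mul_pow]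
  ring

private theorem mk_ff {p : ℕ} [Fact p.Prime] (T : ZMod p → ℕ) (j : ℕ) (Φ : Polynomial (ZMod p)) :
    AdjoinRoot.mk Φ (ff p T j) = ∑ c, ((T c : ℕ) : AdjoinRoot Φ) * (AdjoinRoot.root Φ ^ j) ^ c.val := by
  unfold ff
  rw [map_sum]
  refine Finset.sum_congr rfl fun c _ => ?_
  rw [map_mul, map_pow, AdjoinRoot.mk_X, ← pow_mul, map_natCast, map_natCast]

theorem pw {m p : ℕ} [Fact p.Prime] (T : ZMod p → ℕ) (hT : Cls m p T) (hp : 3 ≤ p) (k : ℕ) (hk : k + 2 ≤ p) :
    bc (ps T) (bc (ps T) (ps T)) k + 3 * bc (ps T) (fun l => 2 ^ l * ps T l) k + 2 * 3 ^ k * ps T k =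
      6 * (m : ZMod p) * ps T k := by
  set Φ := Polynomial.cyclotomic p (ZMod p) with hΦ
  have hz : Polynomial.aeval (AdjoinRoot.root Φ) (Polynomial.cyclotomic p ℤ) = 0 := by
    have h1 := AdjoinRoot.eval₂_root Φ
    rw [Polynomial.eval₂_eq_eval_map, hΦ, Polynomial.map_cyclotomic] at h1
    rw [Polynomial.aeval_def, Polynomial.eval₂_eq_eval_map, Polynomial.map_cyclotomic]
    exact h1
  have h1 := hT.eqn p dvd_rfl (by omega) (AdjoinRoot Φ) (AdjoinRoot.root Φ) hz
  have e1 : ∑ c, ((T c : ℕ) : AdjoinRoot Φ) * AdjoinRoot.root Φ ^ c.val = AdjoinRoot.mk Φ (ff p T 1) := by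
    rw [mk_ff, pow_one]
  rw [e1, ← mk_ff, ← mk_ff] at h1
  have h2 : AdjoinRoot.mk Φ (ff p T 1 * (ff p T 1 * ff p T 1) + Polynomial.C 3 * (ff p T 1 * ff p T 2) +
      Polynomial.C 2 * ff p T 3 - Polynomial.C (6 * (m : ZMod p)) * ff p T 1) = 0 := by
    rw [map_sub, map_add, map_add, map_mul, map_mul, map_mul, map_mul, map_mul, map_mul, Polynomial.C_mul, map_mul]
    simp only [map_ofNat, map_natCast]
    rw [sub_eq_zero]
    linear_combination h1
  obtain ⟨G, hG⟩ := AdjoinRoot.mk_eq_zero.1 h2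
  have h3 := congrArg (Lf p k) hG
  rw [Lf_cyc_mul hk, map_sub, map_add, map_add, Lf_mul] at h3
  have e2 : ∀ (a : ZMod p) (P : Polynomial (ZMod p)), Lf p k (Polynomial.C a * P) = a * Lf p k P := by
    intro a P
    rw [Polynomial.C_mul', map_smul, smul_eq_mul]
  rw [e2, e2, e2, Lf_mul] at h3
  have e3 : (fun l => Lf p l (ff p T 1)) = ps T := by
    funext l
    rw [Lf_ff, Nat.cast_one, one_pow, one_mul]
  have e4 : (fun l => Lf p l (ff p T 2)) = fun l => 2 ^ l * ps T l := by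
    funext l
    rw [Lf_ff, Nat.cast_ofNat]
  have e5 : (fun l => Lf p l (ff p T 1 * ff p T 1)) = bc (ps T) (ps T) := by
    funext l
    rw [Lf_mul, e3]
  rw [e3, e4, e5, Lf_ff, Lf_ff, Nat.cast_one, one_pow, one_mul, Nat.cast_ofNat] at h3
  linear_combination h3

end TightIndep.SX
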