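import Pool.Agent.Lib.MP_f31b39_co.NO.Thr
import Pool.Agent.Lib.MP_f31b39_co.NO.Bd6

/-!
# SX-Th: the numbers `m` with `3 ∣ n`
-/

namespace TightIndep.SX

open Finset

private theorem th_range {m : ℕ} (hm : m ≤ 58) {x : ℤ} (hx : x ^ 3 + 3 * x ^ 2 + 2 * (2 * m + 1) = 6 * m * x) :
    x ∈ Finset.Icc (-25 : ℤ) 25 := by
  have hm' : (m : ℤ) ≤ 58 := by exact_mod_cast hm
  have hm0 : (0 : ℤ) ≤ m := Int.natCast_nonneg m
  obtain ⟨k, hk⟩ : ∃ k : ℤ, k = m := ⟨_, rfl⟩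
  rw [← hk] at hm' hm0 hx
  rw [Finset.mem_Icc]
  constructor
  · by_contra h
    push Not at h
    obtain ⟨y, rfl⟩ : ∃ y : ℤ, x = -y := ⟨-x, by ring⟩
    have hy : 26 ≤ y := by omega
    have e1 : y * (y * (y - 3) - 6 * k) = 4 * k + 2 := by linear_combination (-1) * hx
    have e2 : 26 * 23 ≤ y * (y - 3) := mul_le_mul hy (by omega) (by norm_num) (by omega)
    have e3 : 26 * 250 ≤ y * (y * (y - 3) - 6 * k) := mul_le_mul hy (by omega) (by norm_num) (by omega)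
    omega
  · by_contra h
    push Not at h
    have hy : 26 ≤ x := by omega
    have e1 : x * (x * (x + 3) - 6 * k) = -(4 * k + 2) := by linear_combination hx
    have e2 : 26 * 29 ≤ x * (x + 3) := mul_le_mul hy (by omega) (by norm_num) (by omega)
    have e3 : 0 ≤ x * (x * (x + 3) - 6 * k) := mul_nonneg (by omega) (by omega)
    omega

private theorem th_tab : ∀ m ∈ ({5, 12, 13, 14, 21, 22, 23, 30, 31, 32, 39, 40, 41, 48, 49, 50, 57, 58} : Finset ℕ),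
    m ≤ 58 ∧ 9 ∣ (2 * m + 1) * (2 * m ^ 2 + 2 * m + 3) ∧
      ∀ x ∈ Finset.Icc (-25 : ℤ) 25, x ^ 3 + 3 * x ^ 2 + 2 * (2 * (m : ℤ) + 1) ≠ 6 * (m : ℤ) * x := by
  decide +kernel

theorem th {n m : ℕ} [NeZero n] (a : Fin m → ZMod n) (h : ∀ v ∈ rel a, v ≠ 0 → 7 ≤ nrm v)
    (hG : Fintype.card (ZMod n) = bound m 6)
    (hm : m ∈ ({5, 12, 13, 14, 21, 22, 23, 30, 31, 32, 39, 40, 41, 48, 49, 50, 57, 58} : Finset ℕ)) : False := by
  obtain ⟨h1, h2, h3⟩ := th_tab m hm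
  have h4 : 3 ∣ n := by
    have h5 := NO.bound6 m
    rw [← hG, ZMod.card] at h5
    rw [← h5] at h2
    omega
  obtain ⟨x, hx⟩ := NO.three6 a h hG h4
  exact h3 x (th_range h1 hx) hx

end TightIndep.SX
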